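import Pool.Agent.Strip051.Box.C2
import Pool.Agent.Strip051.Box.S30
import Pool.Agent.Strip051.LB.Fc.F2

/-! # LINE tight chart ChB00V2_pm_001 -/

namespace Pool.Agent.Strip051.LB.ChB00V2_pm_001

open Pool.Agent.Strip051.Box Pool.Agent.Strip051.Box2

open Pool.Agent.Strip051.LB.Fc Pool.Agent.Strip051.LB.Fc.F2 Pool.Agent.Strip051.LB.Fn Pool.Agent.Strip051.LB.Fn.F2

/-- coordinates of a point of the box -/
def In (b : Bx) (E : Pt) (x1 x2 : ℝ) : Prop :=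
  (S : ℝ) * x1 = ((b.p1 : ℝ) - b.n1) + b.q1 * E.e1 ∧ (S : ℝ) * x2 = ((b.p2 : ℝ) - b.n2) + b.q2 * E.e2

variable {b : Bx} {E : Pt} {x1 x2 : ℝ}

def t0 (b : Bx) : TM := X1 b
noncomputable def v0 (x1 _x2 : ℝ) : ℝ := x1
theorem h0 (h : In b E x1 x2) : Enc S E (t0 b) (v0 x1 x2) := enc_X1 h.1

def t1 (b : Bx) : TM := X2 b
noncomputable def v1 (_x1 x2 : ℝ) : ℝ := x2
theorem h1 (h : In b E x1 x2) : Enc S E (t1 b) (v1 x1 x2) := enc_X2 h.2

def t2 (_b : Bx) : TM := tconst 1859775393 0 1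
noncomputable def v2 (_x1 _x2 : ℝ) : ℝ := Real.sqrt ((3 : ℕ) : ℝ)
theorem h2 (_h : In b E x1 x2) : Enc S E (t2 b) (v2 x1 x2) := enc_sqrtn E (by decide) (by decide)

def t3 (b : Bx) : TM := tscale 1 2 (t2 b)
noncomputable def v3 (x1 x2 : ℝ) : ℝ := ((1 : ℕ) : ℝ) / ((2 : ℕ) : ℝ) * v2 x1 x2
theorem h3 (h : In b E x1 x2) : Enc S E (t3 b) (v3 x1 x2) := enc_scale 1 (by norm_num) (h2 h)

def t4 (b : Bx) : TM := tsq S (t0 b)
noncomputable def v4 (x1 x2 : ℝ) : ℝ := (v0 x1 x2) ^ 2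
theorem h4 (h : In b E x1 x2) : Enc S E (t4 b) (v4 x1 x2) := enc_sq hS (h0 h)

def t5 (_b : Bx) : TM := tconst (Nat.mul 1 S) 0 0
noncomputable def v5 (_x1 _x2 : ℝ) : ℝ := ((1 : ℕ) : ℝ)
theorem h5 (_h : In b E x1 x2) : Enc S E (t5 b) (v5 x1 x2) := enc_nc E 1

def t6 (b : Bx) : TM := tsub (t5 b) (t4 b)
noncomputable def v6 (x1 x2 : ℝ) : ℝ := v5 x1 x2 - v4 x1 x2
theorem h6 (h : In b E x1 x2) : Enc S E (t6 b) (v6 x1 x2) := enc_sub (h5 h) (h4 h)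

def t7 (b : Bx) : TM := tsqrt S (t6 b)
noncomputable def v7 (x1 x2 : ℝ) : ℝ := Real.sqrt (v6 x1 x2)
theorem h7 (h : In b E x1 x2) : Enc S E (t7 b) (v7 x1 x2) := enc_sqrt hS (h6 h)

def t9 (_b : Bx) : TM := tconst (Nat.div (Nat.mul 1 S) 2) 0 1
noncomputable def v9 (_x1 _x2 : ℝ) : ℝ := ((1 : ℕ) : ℝ) / ((2 : ℕ) : ℝ)
theorem h9 (_h : In b E x1 x2) : Enc S E (t9 b) (v9 x1 x2) := enc_rat E 1 (by norm_num)

def t10 (b : Bx) : TM := tmul S (t7 b) (t3 b)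
noncomputable def v10 (x1 x2 : ℝ) : ℝ := v7 x1 x2 * v3 x1 x2
theorem h10 (h : In b E x1 x2) : Enc S E (t10 b) (v10 x1 x2) := enc_mul hS (h7 h) (h3 h)

def t11 (b : Bx) : TM := tneg (t10 b)
noncomputable def v11 (x1 x2 : ℝ) : ℝ := -(v10 x1 x2)
theorem h11 (h : In b E x1 x2) : Enc S E (t11 b) (v11 x1 x2) := enc_neg (h10 h)

def t12 (b : Bx) : TM := tscale 1 2 (t0 b)
noncomputable def v12 (x1 x2 : ℝ) : ℝ := ((1 : ℕ) : ℝ) / ((2 : ℕ) : ℝ) * v0 x1 x2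
theorem h12 (h : In b E x1 x2) : Enc S E (t12 b) (v12 x1 x2) := enc_scale 1 (by norm_num) (h0 h)

def t13 (b : Bx) : TM := tsub (t11 b) (t12 b)
noncomputable def v13 (x1 x2 : ℝ) : ℝ := v11 x1 x2 - v12 x1 x2
theorem h13 (h : In b E x1 x2) : Enc S E (t13 b) (v13 x1 x2) := enc_sub (h11 h) (h12 h)

def t14 (b : Bx) : TM := tmul S (t0 b) (t3 b)
noncomputable def v14 (x1 x2 : ℝ) : ℝ := v0 x1 x2 * v3 x1 x2
theorem h14 (h : In b E x1 x2) : Enc S E (t14 b) (v14 x1 x2) := enc_mul hS (h0 h) (h3 h)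

def t16 (b : Bx) : TM := tscale 1 2 (t7 b)
noncomputable def v16 (x1 x2 : ℝ) : ℝ := ((1 : ℕ) : ℝ) / ((2 : ℕ) : ℝ) * v7 x1 x2
theorem h16 (h : In b E x1 x2) : Enc S E (t16 b) (v16 x1 x2) := enc_scale 1 (by norm_num) (h7 h)

def t18 (b : Bx) : TM := tmul S (t13 b) (t2 b)
noncomputable def v18 (x1 x2 : ℝ) : ℝ := v13 x1 x2 * v2 x1 x2
theorem h18 (h : In b E x1 x2) : Enc S E (t18 b) (v18 x1 x2) := enc_mul hS (h13 h) (h2 h)

def t24 (b : Bx) : TM := tsub (t10 b) (t12 b)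
noncomputable def v24 (x1 x2 : ℝ) : ℝ := v10 x1 x2 - v12 x1 x2
theorem h24 (h : In b E x1 x2) : Enc S E (t24 b) (v24 x1 x2) := enc_sub (h10 h) (h12 h)

def t25 (b : Bx) : TM := tsub (t1 b) (t24 b)
noncomputable def v25 (x1 x2 : ℝ) : ℝ := v1 x1 x2 - v24 x1 x2
theorem h25 (h : In b E x1 x2) : Enc S E (t25 b) (v25 x1 x2) := enc_sub (h1 h) (h24 h)

def t26 (b : Bx) : TM := tsq S (t1 b)
noncomputable def v26 (x1 x2 : ℝ) : ℝ := (v1 x1 x2) ^ 2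
theorem h26 (h : In b E x1 x2) : Enc S E (t26 b) (v26 x1 x2) := enc_sq hS (h1 h)

def t27 (b : Bx) : TM := tsub (t5 b) (t26 b)
noncomputable def v27 (x1 x2 : ℝ) : ℝ := v5 x1 x2 - v26 x1 x2
theorem h27 (h : In b E x1 x2) : Enc S E (t27 b) (v27 x1 x2) := enc_sub (h5 h) (h26 h)

def t28 (b : Bx) : TM := tsqrt S (t27 b)
noncomputable def v28 (x1 x2 : ℝ) : ℝ := Real.sqrt (v27 x1 x2)
theorem h28 (h : In b E x1 x2) : Enc S E (t28 b) (v28 x1 x2) := enc_sqrt hS (h27 h)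

def t29 (b : Bx) : TM := tadd (t14 b) (t16 b)
noncomputable def v29 (x1 x2 : ℝ) : ℝ := v14 x1 x2 + v16 x1 x2
theorem h29 (h : In b E x1 x2) : Enc S E (t29 b) (v29 x1 x2) := enc_add (h14 h) (h16 h)

def t30 (b : Bx) : TM := tneg (t28 b)
noncomputable def v30 (x1 x2 : ℝ) : ℝ := -(v28 x1 x2)
theorem h30 (h : In b E x1 x2) : Enc S E (t30 b) (v30 x1 x2) := enc_neg (h28 h)

def t31 (b : Bx) : TM := tsub (t30 b) (t7 b)
noncomputable def v31 (x1 x2 : ℝ) : ℝ := v30 x1 x2 - v7 x1 x2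
theorem h31 (h : In b E x1 x2) : Enc S E (t31 b) (v31 x1 x2) := enc_sub (h30 h) (h7 h)

def t32 (b : Bx) : TM := tsub (t1 b) (t0 b)
noncomputable def v32 (x1 x2 : ℝ) : ℝ := v1 x1 x2 - v0 x1 x2
theorem h32 (h : In b E x1 x2) : Enc S E (t32 b) (v32 x1 x2) := enc_sub (h1 h) (h0 h)

def t33 (b : Bx) : TM := tmul S (t2 b) (t0 b)
noncomputable def v33 (x1 x2 : ℝ) : ℝ := v2 x1 x2 * v0 x1 x2
theorem h33 (h : In b E x1 x2) : Enc S E (t33 b) (v33 x1 x2) := enc_mul hS (h2 h) (h0 h)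

def t34 (b : Bx) : TM := tsub (t7 b) (t33 b)
noncomputable def v34 (x1 x2 : ℝ) : ℝ := v7 x1 x2 - v33 x1 x2
theorem h34 (h : In b E x1 x2) : Enc S E (t34 b) (v34 x1 x2) := enc_sub (h7 h) (h33 h)

def t35 (b : Bx) : TM := tadd (t5 b) (t7 b)
noncomputable def v35 (x1 x2 : ℝ) : ℝ := v5 x1 x2 + v7 x1 x2
theorem h35 (h : In b E x1 x2) : Enc S E (t35 b) (v35 x1 x2) := enc_add (h5 h) (h7 h)

def t36 (b : Bx) : TM := tmul S (t34 b) (t35 b)
noncomputable def v36 (x1 x2 : ℝ) : ℝ := v34 x1 x2 * v35 x1 x2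
theorem h36 (h : In b E x1 x2) : Enc S E (t36 b) (v36 x1 x2) := enc_mul hS (h34 h) (h35 h)

def t37 (b : Bx) : TM := tsub (t35 b) (t33 b)
noncomputable def v37 (x1 x2 : ℝ) : ℝ := v35 x1 x2 - v33 x1 x2
theorem h37 (h : In b E x1 x2) : Enc S E (t37 b) (v37 x1 x2) := enc_sub (h35 h) (h33 h)

def t38 (b : Bx) : TM := tinv S (t37 b)
noncomputable def v38 (x1 x2 : ℝ) : ℝ := (v37 x1 x2)⁻¹
theorem h38 (h : In b E x1 x2) : Enc S E (t38 b) (v38 x1 x2) := enc_inv hS (h37 h)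

def t39 (b : Bx) : TM := tmul S (t36 b) (t38 b)
noncomputable def v39 (x1 x2 : ℝ) : ℝ := v36 x1 x2 * v38 x1 x2
theorem h39 (h : In b E x1 x2) : Enc S E (t39 b) (v39 x1 x2) := enc_mul hS (h36 h) (h38 h)

def t40 (b : Bx) : TM := tnat 2 (t28 b)
noncomputable def v40 (x1 x2 : ℝ) : ℝ := ((2 : ℕ) : ℝ) * v28 x1 x2
theorem h40 (h : In b E x1 x2) : Enc S E (t40 b) (v40 x1 x2) := enc_nat 2 (h28 h)

def t41 (b : Bx) : TM := tadd (t5 b) (t40 b)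
noncomputable def v41 (x1 x2 : ℝ) : ℝ := v5 x1 x2 + v40 x1 x2
theorem h41 (h : In b E x1 x2) : Enc S E (t41 b) (v41 x1 x2) := enc_add (h5 h) (h40 h)

def t42 (b : Bx) : TM := tmul S (t2 b) (t1 b)
noncomputable def v42 (x1 x2 : ℝ) : ℝ := v2 x1 x2 * v1 x1 x2
theorem h42 (h : In b E x1 x2) : Enc S E (t42 b) (v42 x1 x2) := enc_mul hS (h2 h) (h1 h)

def t43 (b : Bx) : TM := tsub (t42 b) (t28 b)
noncomputable def v43 (x1 x2 : ℝ) : ℝ := v42 x1 x2 - v28 x1 x2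
theorem h43 (h : In b E x1 x2) : Enc S E (t43 b) (v43 x1 x2) := enc_sub (h42 h) (h28 h)

def t44 (b : Bx) : TM := tmul S (t41 b) (t43 b)
noncomputable def v44 (x1 x2 : ℝ) : ℝ := v41 x1 x2 * v43 x1 x2
theorem h44 (h : In b E x1 x2) : Enc S E (t44 b) (v44 x1 x2) := enc_mul hS (h41 h) (h43 h)

def t45 (b : Bx) : TM := tadd (t5 b) (t42 b)
noncomputable def v45 (x1 x2 : ℝ) : ℝ := v5 x1 x2 + v42 x1 x2
theorem h45 (h : In b E x1 x2) : Enc S E (t45 b) (v45 x1 x2) := enc_add (h5 h) (h42 h)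

def t46 (b : Bx) : TM := tsub (t45 b) (t28 b)
noncomputable def v46 (x1 x2 : ℝ) : ℝ := v45 x1 x2 - v28 x1 x2
theorem h46 (h : In b E x1 x2) : Enc S E (t46 b) (v46 x1 x2) := enc_sub (h45 h) (h28 h)

def t47 (b : Bx) : TM := tnat 2 (t46 b)
noncomputable def v47 (x1 x2 : ℝ) : ℝ := ((2 : ℕ) : ℝ) * v46 x1 x2
theorem h47 (h : In b E x1 x2) : Enc S E (t47 b) (v47 x1 x2) := enc_nat 2 (h46 h)

def t48 (b : Bx) : TM := tinv S (t47 b)
noncomputable def v48 (x1 x2 : ℝ) : ℝ := (v47 x1 x2)⁻¹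
theorem h48 (h : In b E x1 x2) : Enc S E (t48 b) (v48 x1 x2) := enc_inv hS (h47 h)

def t49 (b : Bx) : TM := tmul S (t44 b) (t48 b)
noncomputable def v49 (x1 x2 : ℝ) : ℝ := v44 x1 x2 * v48 x1 x2
theorem h49 (h : In b E x1 x2) : Enc S E (t49 b) (v49 x1 x2) := enc_mul hS (h44 h) (h48 h)

def t51 (b : Bx) : TM := tsq S (t31 b)
noncomputable def v51 (x1 x2 : ℝ) : ℝ := (v31 x1 x2) ^ 2
theorem h51 (h : In b E x1 x2) : Enc S E (t51 b) (v51 x1 x2) := enc_sq hS (h31 h)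

def t52 (_b : Bx) : TM := tconst (Nat.mul 3 S) 0 0
noncomputable def v52 (_x1 _x2 : ℝ) : ℝ := ((3 : ℕ) : ℝ)
theorem h52 (_h : In b E x1 x2) : Enc S E (t52 b) (v52 x1 x2) := enc_nc E 3

def t53 (b : Bx) : TM := tsub (t52 b) (t51 b)
noncomputable def v53 (x1 x2 : ℝ) : ℝ := v52 x1 x2 - v51 x1 x2
theorem h53 (h : In b E x1 x2) : Enc S E (t53 b) (v53 x1 x2) := enc_sub (h52 h) (h51 h)

def t54 (b : Bx) : TM := tsq S (t32 b)
noncomputable def v54 (x1 x2 : ℝ) : ℝ := (v32 x1 x2) ^ 2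
theorem h54 (h : In b E x1 x2) : Enc S E (t54 b) (v54 x1 x2) := enc_sq hS (h32 h)

def t58 (b : Bx) : TM := tadd (t1 b) (t24 b)
noncomputable def v58 (x1 x2 : ℝ) : ℝ := v1 x1 x2 + v24 x1 x2
theorem h58 (h : In b E x1 x2) : Enc S E (t58 b) (v58 x1 x2) := enc_add (h1 h) (h24 h)

def t61 (b : Bx) : TM := tadd (t28 b) (t29 b)
noncomputable def v61 (x1 x2 : ℝ) : ℝ := v28 x1 x2 + v29 x1 x2
theorem h61 (h : In b E x1 x2) : Enc S E (t61 b) (v61 x1 x2) := enc_add (h28 h) (h29 h)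

def t62 (b : Bx) : TM := tinv S (t61 b)
noncomputable def v62 (x1 x2 : ℝ) : ℝ := (v61 x1 x2)⁻¹
theorem h62 (h : In b E x1 x2) : Enc S E (t62 b) (v62 x1 x2) := enc_inv hS (h61 h)

def t63 (b : Bx) : TM := tmul S (t58 b) (t62 b)
noncomputable def v63 (x1 x2 : ℝ) : ℝ := v58 x1 x2 * v62 x1 x2
theorem h63 (h : In b E x1 x2) : Enc S E (t63 b) (v63 x1 x2) := enc_mul hS (h58 h) (h62 h)

def t65 (b : Bx) : TM := tneg (t29 b)
noncomputable def v65 (x1 x2 : ℝ) : ℝ := -(v29 x1 x2)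
theorem h65 (h : In b E x1 x2) : Enc S E (t65 b) (v65 x1 x2) := enc_neg (h29 h)

def t66 (b : Bx) : TM := tsub (t65 b) (t7 b)
noncomputable def v66 (x1 x2 : ℝ) : ℝ := v65 x1 x2 - v7 x1 x2
theorem h66 (h : In b E x1 x2) : Enc S E (t66 b) (v66 x1 x2) := enc_sub (h65 h) (h7 h)

def t68 (b : Bx) : TM := tadd (t31 b) (t66 b)
noncomputable def v68 (x1 x2 : ℝ) : ℝ := v31 x1 x2 + v66 x1 x2
theorem h68 (h : In b E x1 x2) : Enc S E (t68 b) (v68 x1 x2) := enc_add (h31 h) (h66 h)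

def t69 (b : Bx) : TM := tmul S (t63 b) (t68 b)
noncomputable def v69 (x1 x2 : ℝ) : ℝ := v63 x1 x2 * v68 x1 x2
theorem h69 (h : In b E x1 x2) : Enc S E (t69 b) (v69 x1 x2) := enc_mul hS (h63 h) (h68 h)

def t71 (b : Bx) : TM := tneg (t69 b)
noncomputable def v71 (x1 x2 : ℝ) : ℝ := -(v69 x1 x2)
theorem h71 (h : In b E x1 x2) : Enc S E (t71 b) (v71 x1 x2) := enc_neg (h69 h)

def t72 (b : Bx) : TM := tsub (t24 b) (t0 b)
noncomputable def v72 (x1 x2 : ℝ) : ℝ := v24 x1 x2 - v0 x1 x2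
theorem h72 (h : In b E x1 x2) : Enc S E (t72 b) (v72 x1 x2) := enc_sub (h24 h) (h0 h)

def t73 (b : Bx) : TM := tsq S (t72 b)
noncomputable def v73 (x1 x2 : ℝ) : ℝ := (v72 x1 x2) ^ 2
theorem h73 (h : In b E x1 x2) : Enc S E (t73 b) (v73 x1 x2) := enc_sq hS (h72 h)

def t74 (b : Bx) : TM := tadd (t32 b) (t72 b)
noncomputable def v74 (x1 x2 : ℝ) : ℝ := v32 x1 x2 + v72 x1 x2
theorem h74 (h : In b E x1 x2) : Enc S E (t74 b) (v74 x1 x2) := enc_add (h32 h) (h72 h)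

def t76 (b : Bx) : TM := tsub (t71 b) (t74 b)
noncomputable def v76 (x1 x2 : ℝ) : ℝ := v71 x1 x2 - v74 x1 x2
theorem h76 (h : In b E x1 x2) : Enc S E (t76 b) (v76 x1 x2) := enc_sub (h71 h) (h74 h)

def t77 (b : Bx) : TM := tadd (t7 b) (t28 b)
noncomputable def v77 (x1 x2 : ℝ) : ℝ := v7 x1 x2 + v28 x1 x2
theorem h77 (h : In b E x1 x2) : Enc S E (t77 b) (v77 x1 x2) := enc_add (h7 h) (h28 h)

def t78 (b : Bx) : TM := tsub (t52 b) (t54 b)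
noncomputable def v78 (x1 x2 : ℝ) : ℝ := v52 x1 x2 - v54 x1 x2
theorem h78 (h : In b E x1 x2) : Enc S E (t78 b) (v78 x1 x2) := enc_sub (h52 h) (h54 h)

def t79 (b : Bx) : TM := tsqrt S (t78 b)
noncomputable def v79 (x1 x2 : ℝ) : ℝ := Real.sqrt (v78 x1 x2)
theorem h79 (h : In b E x1 x2) : Enc S E (t79 b) (v79 x1 x2) := enc_sqrt hS (h78 h)

def t81 (_b : Bx) : TM := tconst (Nat.div (Nat.mul 3 S) 2) 0 1
noncomputable def v81 (_x1 _x2 : ℝ) : ℝ := ((3 : ℕ) : ℝ) / ((2 : ℕ) : ℝ)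
theorem h81 (_h : In b E x1 x2) : Enc S E (t81 b) (v81 x1 x2) := enc_rat E 3 (by norm_num)

def t82 (b : Bx) : TM := tadd (t79 b) (t81 b)
noncomputable def v82 (x1 x2 : ℝ) : ℝ := v79 x1 x2 + v81 x1 x2
theorem h82 (h : In b E x1 x2) : Enc S E (t82 b) (v82 x1 x2) := enc_add (h79 h) (h81 h)

def t83 (b : Bx) : TM := tmul S (t54 b) (t82 b)
noncomputable def v83 (x1 x2 : ℝ) : ℝ := v54 x1 x2 * v82 x1 x2
theorem h83 (h : In b E x1 x2) : Enc S E (t83 b) (v83 x1 x2) := enc_mul hS (h54 h) (h82 h)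

def t84 (b : Bx) : TM := tsub (t3 b) (t32 b)
noncomputable def v84 (x1 x2 : ℝ) : ℝ := v3 x1 x2 - v32 x1 x2
theorem h84 (h : In b E x1 x2) : Enc S E (t84 b) (v84 x1 x2) := enc_sub (h3 h) (h32 h)

def t85 (b : Bx) : TM := tadd (t3 b) (t32 b)
noncomputable def v85 (x1 x2 : ℝ) : ℝ := v3 x1 x2 + v32 x1 x2
theorem h85 (h : In b E x1 x2) : Enc S E (t85 b) (v85 x1 x2) := enc_add (h3 h) (h32 h)

def t86 (b : Bx) : TM := tmul S (t84 b) (t85 b)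
noncomputable def v86 (x1 x2 : ℝ) : ℝ := v84 x1 x2 * v85 x1 x2
theorem h86 (h : In b E x1 x2) : Enc S E (t86 b) (v86 x1 x2) := enc_mul hS (h84 h) (h85 h)

def t87 (b : Bx) : TM := tinv S (t86 b)
noncomputable def v87 (x1 x2 : ℝ) : ℝ := (v86 x1 x2)⁻¹
theorem h87 (h : In b E x1 x2) : Enc S E (t87 b) (v87 x1 x2) := enc_inv hS (h86 h)

def t88 (b : Bx) : TM := tmul S (t83 b) (t87 b)
noncomputable def v88 (x1 x2 : ℝ) : ℝ := v83 x1 x2 * v87 x1 x2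
theorem h88 (h : In b E x1 x2) : Enc S E (t88 b) (v88 x1 x2) := enc_mul hS (h83 h) (h87 h)

def t92 (b : Bx) : TM := tsub (t79 b) (t18 b)
noncomputable def v92 (x1 x2 : ℝ) : ℝ := v79 x1 x2 - v18 x1 x2
theorem h92 (h : In b E x1 x2) : Enc S E (t92 b) (v92 x1 x2) := enc_sub (h79 h) (h18 h)

def t93 (b : Bx) : TM := tinv S (t92 b)
noncomputable def v93 (x1 x2 : ℝ) : ℝ := (v92 x1 x2)⁻¹
theorem h93 (h : In b E x1 x2) : Enc S E (t93 b) (v93 x1 x2) := enc_inv hS (h92 h)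

def t94 (b : Bx) : TM := tmul S (t74 b) (t93 b)
noncomputable def v94 (x1 x2 : ℝ) : ℝ := v74 x1 x2 * v93 x1 x2
theorem h94 (h : In b E x1 x2) : Enc S E (t94 b) (v94 x1 x2) := enc_mul hS (h74 h) (h93 h)

def t96 (b : Bx) : TM := tsub (t81 b) (t18 b)
noncomputable def v96 (x1 x2 : ℝ) : ℝ := v81 x1 x2 - v18 x1 x2
theorem h96 (h : In b E x1 x2) : Enc S E (t96 b) (v96 x1 x2) := enc_sub (h81 h) (h18 h)

def t97 (b : Bx) : TM := tmul S (t73 b) (t96 b)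
noncomputable def v97 (x1 x2 : ℝ) : ℝ := v73 x1 x2 * v96 x1 x2
theorem h97 (h : In b E x1 x2) : Enc S E (t97 b) (v97 x1 x2) := enc_mul hS (h73 h) (h96 h)

def t98 (b : Bx) : TM := tmul S (t74 b) (t82 b)
noncomputable def v98 (x1 x2 : ℝ) : ℝ := v74 x1 x2 * v82 x1 x2
theorem h98 (h : In b E x1 x2) : Enc S E (t98 b) (v98 x1 x2) := enc_mul hS (h74 h) (h82 h)

def t99 (b : Bx) : TM := tmul S (t73 b) (t94 b)
noncomputable def v99 (x1 x2 : ℝ) : ℝ := v73 x1 x2 * v94 x1 x2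
theorem h99 (h : In b E x1 x2) : Enc S E (t99 b) (v99 x1 x2) := enc_mul hS (h73 h) (h94 h)

def t101 (b : Bx) : TM := tsub (t98 b) (t99 b)
noncomputable def v101 (x1 x2 : ℝ) : ℝ := v98 x1 x2 - v99 x1 x2
theorem h101 (h : In b E x1 x2) : Enc S E (t101 b) (v101 x1 x2) := enc_sub (h98 h) (h99 h)

def t102 (b : Bx) : TM := tsub (t3 b) (t72 b)
noncomputable def v102 (x1 x2 : ℝ) : ℝ := v3 x1 x2 - v72 x1 x2
theorem h102 (h : In b E x1 x2) : Enc S E (t102 b) (v102 x1 x2) := enc_sub (h3 h) (h72 h)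

def t104 (b : Bx) : TM := tadd (t3 b) (t72 b)
noncomputable def v104 (x1 x2 : ℝ) : ℝ := v3 x1 x2 + v72 x1 x2
theorem h104 (h : In b E x1 x2) : Enc S E (t104 b) (v104 x1 x2) := enc_add (h3 h) (h72 h)

def t105 (b : Bx) : TM := tmul S (t102 b) (t104 b)
noncomputable def v105 (x1 x2 : ℝ) : ℝ := v102 x1 x2 * v104 x1 x2
theorem h105 (h : In b E x1 x2) : Enc S E (t105 b) (v105 x1 x2) := enc_mul hS (h102 h) (h104 h)

def t107 (b : Bx) : TM := tsub (t102 b) (t85 b)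
noncomputable def v107 (x1 x2 : ℝ) : ℝ := v102 x1 x2 - v85 x1 x2
theorem h107 (h : In b E x1 x2) : Enc S E (t107 b) (v107 x1 x2) := enc_sub (h102 h) (h85 h)

def t108 (b : Bx) : TM := tinv S (t105 b)
noncomputable def v108 (x1 x2 : ℝ) : ℝ := (v105 x1 x2)⁻¹
theorem h108 (h : In b E x1 x2) : Enc S E (t108 b) (v108 x1 x2) := enc_inv hS (h105 h)

def t109 (b : Bx) : TM := tmul S (t87 b) (t108 b)
noncomputable def v109 (x1 x2 : ℝ) : ℝ := v87 x1 x2 * v108 x1 x2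
theorem h109 (h : In b E x1 x2) : Enc S E (t109 b) (v109 x1 x2) := enc_mul hS (h87 h) (h108 h)

def t110 (b : Bx) : TM := tmul S (t107 b) (t109 b)
noncomputable def v110 (x1 x2 : ℝ) : ℝ := v107 x1 x2 * v109 x1 x2
theorem h110 (h : In b E x1 x2) : Enc S E (t110 b) (v110 x1 x2) := enc_mul hS (h107 h) (h109 h)

def t113 (b : Bx) : TM := tmul S (t101 b) (t87 b)
noncomputable def v113 (x1 x2 : ℝ) : ℝ := v101 x1 x2 * v87 x1 x2
theorem h113 (h : In b E x1 x2) : Enc S E (t113 b) (v113 x1 x2) := enc_mul hS (h101 h) (h87 h)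

def t114 (b : Bx) : TM := tmul S (t97 b) (t110 b)
noncomputable def v114 (x1 x2 : ℝ) : ℝ := v97 x1 x2 * v110 x1 x2
theorem h114 (h : In b E x1 x2) : Enc S E (t114 b) (v114 x1 x2) := enc_mul hS (h97 h) (h110 h)

def t118 (b : Bx) : TM := tsub (t114 b) (t113 b)
noncomputable def v118 (x1 x2 : ℝ) : ℝ := v114 x1 x2 - v113 x1 x2
theorem h118 (h : In b E x1 x2) : Enc S E (t118 b) (v118 x1 x2) := enc_sub (h114 h) (h113 h)

def t119 (b : Bx) : TM := kyq0_t (t77 b) (t32 b)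
noncomputable def v119 (x1 x2 : ℝ) : ℝ := kyq0_v (v77 x1 x2) (v32 x1 x2)
theorem h119 (h : In b E x1 x2) : Enc S E (t119 b) (v119 x1 x2) := kyq0_enc (h77 h) (h32 h)

def t120 (b : Bx) : TM := tadd (t77 b) (t79 b)
noncomputable def v120 (x1 x2 : ℝ) : ℝ := v77 x1 x2 + v79 x1 x2
theorem h120 (h : In b E x1 x2) : Enc S E (t120 b) (v120 x1 x2) := enc_add (h77 h) (h79 h)

def t121 (b : Bx) : TM := f1m_t (t32 b)
noncomputable def v121 (x1 x2 : ℝ) : ℝ := f1m_v (v32 x1 x2)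
theorem h121 (h : In b E x1 x2) : Enc S E (t121 b) (v121 x1 x2) := f1m_enc (h32 h)

def t122 (b : Bx) : TM := tsub (t77 b) (t121 b)
noncomputable def v122 (x1 x2 : ℝ) : ℝ := v77 x1 x2 - v121 x1 x2
theorem h122 (h : In b E x1 x2) : Enc S E (t122 b) (v122 x1 x2) := enc_sub (h77 h) (h121 h)

def t123 (b : Bx) : TM := tsub (t79 b) (t77 b)
noncomputable def v123 (x1 x2 : ℝ) : ℝ := v79 x1 x2 - v77 x1 x2
theorem h123 (h : In b E x1 x2) : Enc S E (t123 b) (v123 x1 x2) := enc_sub (h79 h) (h77 h)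

def t124 (b : Bx) : TM := tmul S (t123 b) (t119 b)
noncomputable def v124 (x1 x2 : ℝ) : ℝ := v123 x1 x2 * v119 x1 x2
theorem h124 (h : In b E x1 x2) : Enc S E (t124 b) (v124 x1 x2) := enc_mul hS (h123 h) (h119 h)

def t126 (b : Bx) : TM := tadd (t124 b) (t88 b)
noncomputable def v126 (x1 x2 : ℝ) : ℝ := v124 x1 x2 + v88 x1 x2
theorem h126 (h : In b E x1 x2) : Enc S E (t126 b) (v126 x1 x2) := enc_add (h124 h) (h88 h)

def t127 (b : Bx) : TM := tmul S (t76 b) (t119 b)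
noncomputable def v127 (x1 x2 : ℝ) : ℝ := v76 x1 x2 * v119 x1 x2
theorem h127 (h : In b E x1 x2) : Enc S E (t127 b) (v127 x1 x2) := enc_mul hS (h76 h) (h119 h)

def t128 (b : Bx) : TM := tinv S (t120 b)
noncomputable def v128 (x1 x2 : ℝ) : ℝ := (v120 x1 x2)⁻¹
theorem h128 (h : In b E x1 x2) : Enc S E (t128 b) (v128 x1 x2) := enc_inv hS (h120 h)

def t129 (b : Bx) : TM := tmul S (t127 b) (t128 b)
noncomputable def v129 (x1 x2 : ℝ) : ℝ := v127 x1 x2 * v128 x1 x2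
theorem h129 (h : In b E x1 x2) : Enc S E (t129 b) (v129 x1 x2) := enc_mul hS (h127 h) (h128 h)

def t131 (b : Bx) : TM := tsub (t129 b) (t118 b)
noncomputable def v131 (x1 x2 : ℝ) : ℝ := v129 x1 x2 - v118 x1 x2
theorem h131 (h : In b E x1 x2) : Enc S E (t131 b) (v131 x1 x2) := enc_sub (h129 h) (h118 h)

def t132 (b : Bx) : TM := tmul S (t7 b) (t1 b)
noncomputable def v132 (x1 x2 : ℝ) : ℝ := v7 x1 x2 * v1 x1 x2
theorem h132 (h : In b E x1 x2) : Enc S E (t132 b) (v132 x1 x2) := enc_mul hS (h7 h) (h1 h)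

def t133 (b : Bx) : TM := tmul S (t28 b) (t0 b)
noncomputable def v133 (x1 x2 : ℝ) : ℝ := v28 x1 x2 * v0 x1 x2
theorem h133 (h : In b E x1 x2) : Enc S E (t133 b) (v133 x1 x2) := enc_mul hS (h28 h) (h0 h)

def t135 (b : Bx) : TM := tadd (t132 b) (t133 b)
noncomputable def v135 (x1 x2 : ℝ) : ℝ := v132 x1 x2 + v133 x1 x2
theorem h135 (h : In b E x1 x2) : Enc S E (t135 b) (v135 x1 x2) := enc_add (h132 h) (h133 h)

def t136 (b : Bx) : TM := tinv S (t2 b)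
noncomputable def v136 (x1 x2 : ℝ) : ℝ := (v2 x1 x2)⁻¹
theorem h136 (h : In b E x1 x2) : Enc S E (t136 b) (v136 x1 x2) := enc_inv hS (h2 h)

def t137 (b : Bx) : TM := tmul S (t135 b) (t136 b)
noncomputable def v137 (x1 x2 : ℝ) : ℝ := v135 x1 x2 * v136 x1 x2
theorem h137 (h : In b E x1 x2) : Enc S E (t137 b) (v137 x1 x2) := enc_mul hS (h135 h) (h136 h)

def t138 (b : Bx) : TM := tsub (t137 b) (t9 b)
noncomputable def v138 (x1 x2 : ℝ) : ℝ := v137 x1 x2 - v9 x1 x2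
theorem h138 (h : In b E x1 x2) : Enc S E (t138 b) (v138 x1 x2) := enc_sub (h137 h) (h9 h)

def t141 (b : Bx) : TM := tmul S (t63 b) (t0 b)
noncomputable def v141 (x1 x2 : ℝ) : ℝ := v63 x1 x2 * v0 x1 x2
theorem h141 (h : In b E x1 x2) : Enc S E (t141 b) (v141 x1 x2) := enc_mul hS (h63 h) (h0 h)

def t144 (b : Bx) : TM := tsub (t7 b) (t141 b)
noncomputable def v144 (x1 x2 : ℝ) : ℝ := v7 x1 x2 - v141 x1 x2
theorem h144 (h : In b E x1 x2) : Enc S E (t144 b) (v144 x1 x2) := enc_sub (h7 h) (h141 h)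

def t146 (b : Bx) : TM := tmul S (t144 b) (t136 b)
noncomputable def v146 (x1 x2 : ℝ) : ℝ := v144 x1 x2 * v136 x1 x2
theorem h146 (h : In b E x1 x2) : Enc S E (t146 b) (v146 x1 x2) := enc_mul hS (h144 h) (h136 h)

def t148 (b : Bx) : TM := tsub (t1 b) (t3 b)
noncomputable def v148 (x1 x2 : ℝ) : ℝ := v1 x1 x2 - v3 x1 x2
theorem h148 (h : In b E x1 x2) : Enc S E (t148 b) (v148 x1 x2) := enc_sub (h1 h) (h3 h)

def t160 (b : Bx) : TM := tmul S (t0 b) (t131 b)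
noncomputable def v160 (x1 x2 : ℝ) : ℝ := v0 x1 x2 * v131 x1 x2
theorem h160 (h : In b E x1 x2) : Enc S E (t160 b) (v160 x1 x2) := enc_mul hS (h0 h) (h131 h)

def t161 (b : Bx) : TM := tsub (t160 b) (t39 b)
noncomputable def v161 (x1 x2 : ℝ) : ℝ := v160 x1 x2 - v39 x1 x2
theorem h161 (h : In b E x1 x2) : Enc S E (t161 b) (v161 x1 x2) := enc_sub (h160 h) (h39 h)

def t162 (b : Bx) : TM := tnat 2 (t29 b)
noncomputable def v162 (x1 x2 : ℝ) : ℝ := ((2 : ℕ) : ℝ) * v29 x1 x2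
theorem h162 (h : In b E x1 x2) : Enc S E (t162 b) (v162 x1 x2) := enc_nat 2 (h29 h)

def t163 (b : Bx) : TM := tnat 2 (t63 b)
noncomputable def v163 (x1 x2 : ℝ) : ℝ := ((2 : ℕ) : ℝ) * v63 x1 x2
theorem h163 (h : In b E x1 x2) : Enc S E (t163 b) (v163 x1 x2) := enc_nat 2 (h63 h)

def t165 (b : Bx) : TM := tadd (t5 b) (t162 b)
noncomputable def v165 (x1 x2 : ℝ) : ℝ := v5 x1 x2 + v162 x1 x2
theorem h165 (h : In b E x1 x2) : Enc S E (t165 b) (v165 x1 x2) := enc_add (h5 h) (h162 h)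

def t166 (b : Bx) : TM := tmul S (t2 b) (t24 b)
noncomputable def v166 (x1 x2 : ℝ) : ℝ := v2 x1 x2 * v24 x1 x2
theorem h166 (h : In b E x1 x2) : Enc S E (t166 b) (v166 x1 x2) := enc_mul hS (h2 h) (h24 h)

def t167 (b : Bx) : TM := tsub (t166 b) (t29 b)
noncomputable def v167 (x1 x2 : ℝ) : ℝ := v166 x1 x2 - v29 x1 x2
theorem h167 (h : In b E x1 x2) : Enc S E (t167 b) (v167 x1 x2) := enc_sub (h166 h) (h29 h)

def t168 (b : Bx) : TM := tadd (t2 b) (t63 b)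
noncomputable def v168 (x1 x2 : ℝ) : ℝ := v2 x1 x2 + v63 x1 x2
theorem h168 (h : In b E x1 x2) : Enc S E (t168 b) (v168 x1 x2) := enc_add (h2 h) (h63 h)

def t169 (b : Bx) : TM := tmul S (t165 b) (t167 b)
noncomputable def v169 (x1 x2 : ℝ) : ℝ := v165 x1 x2 * v167 x1 x2
theorem h169 (h : In b E x1 x2) : Enc S E (t169 b) (v169 x1 x2) := enc_mul hS (h165 h) (h167 h)

def t170 (b : Bx) : TM := tmul S (t163 b) (t43 b)
noncomputable def v170 (x1 x2 : ℝ) : ℝ := v163 x1 x2 * v43 x1 x2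
theorem h170 (h : In b E x1 x2) : Enc S E (t170 b) (v170 x1 x2) := enc_mul hS (h163 h) (h43 h)

def t172 (b : Bx) : TM := tmul S (t165 b) (t168 b)
noncomputable def v172 (x1 x2 : ℝ) : ℝ := v165 x1 x2 * v168 x1 x2
theorem h172 (h : In b E x1 x2) : Enc S E (t172 b) (v172 x1 x2) := enc_mul hS (h165 h) (h168 h)

def t173 (b : Bx) : TM := tsub (t172 b) (t170 b)
noncomputable def v173 (x1 x2 : ℝ) : ℝ := v172 x1 x2 - v170 x1 x2
theorem h173 (h : In b E x1 x2) : Enc S E (t173 b) (v173 x1 x2) := enc_sub (h172 h) (h170 h)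

def t174 (b : Bx) : TM := tadd (t5 b) (t166 b)
noncomputable def v174 (x1 x2 : ℝ) : ℝ := v5 x1 x2 + v166 x1 x2
theorem h174 (h : In b E x1 x2) : Enc S E (t174 b) (v174 x1 x2) := enc_add (h5 h) (h166 h)

def t175 (b : Bx) : TM := tsub (t174 b) (t29 b)
noncomputable def v175 (x1 x2 : ℝ) : ℝ := v174 x1 x2 - v29 x1 x2
theorem h175 (h : In b E x1 x2) : Enc S E (t175 b) (v175 x1 x2) := enc_sub (h174 h) (h29 h)

def t176 (b : Bx) : TM := tnat 2 (t175 b)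
noncomputable def v176 (x1 x2 : ℝ) : ℝ := ((2 : ℕ) : ℝ) * v175 x1 x2
theorem h176 (h : In b E x1 x2) : Enc S E (t176 b) (v176 x1 x2) := enc_nat 2 (h175 h)

def t177 (b : Bx) : TM := tnat 2 (t168 b)
noncomputable def v177 (x1 x2 : ℝ) : ℝ := ((2 : ℕ) : ℝ) * v168 x1 x2
theorem h177 (h : In b E x1 x2) : Enc S E (t177 b) (v177 x1 x2) := enc_nat 2 (h168 h)

def t178 (b : Bx) : TM := tinv S (t176 b)
noncomputable def v178 (x1 x2 : ℝ) : ℝ := (v176 x1 x2)⁻¹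
theorem h178 (h : In b E x1 x2) : Enc S E (t178 b) (v178 x1 x2) := enc_inv hS (h176 h)

def t179 (b : Bx) : TM := tmul S (t48 b) (t178 b)
noncomputable def v179 (x1 x2 : ℝ) : ℝ := v48 x1 x2 * v178 x1 x2
theorem h179 (h : In b E x1 x2) : Enc S E (t179 b) (v179 x1 x2) := enc_mul hS (h48 h) (h178 h)

def t180 (b : Bx) : TM := tmul S (t177 b) (t179 b)
noncomputable def v180 (x1 x2 : ℝ) : ℝ := v177 x1 x2 * v179 x1 x2
theorem h180 (h : In b E x1 x2) : Enc S E (t180 b) (v180 x1 x2) := enc_mul hS (h177 h) (h179 h)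

def t183 (b : Bx) : TM := tmul S (t173 b) (t48 b)
noncomputable def v183 (x1 x2 : ℝ) : ℝ := v173 x1 x2 * v48 x1 x2
theorem h183 (h : In b E x1 x2) : Enc S E (t183 b) (v183 x1 x2) := enc_mul hS (h173 h) (h48 h)

def t184 (b : Bx) : TM := tmul S (t169 b) (t180 b)
noncomputable def v184 (x1 x2 : ℝ) : ℝ := v169 x1 x2 * v180 x1 x2
theorem h184 (h : In b E x1 x2) : Enc S E (t184 b) (v184 x1 x2) := enc_mul hS (h169 h) (h180 h)

def t188 (b : Bx) : TM := tsub (t184 b) (t183 b)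
noncomputable def v188 (x1 x2 : ℝ) : ℝ := v184 x1 x2 - v183 x1 x2
theorem h188 (h : In b E x1 x2) : Enc S E (t188 b) (v188 x1 x2) := enc_sub (h184 h) (h183 h)

def t189 (b : Bx) : TM := tsub (t24 b) (t3 b)
noncomputable def v189 (x1 x2 : ℝ) : ℝ := v24 x1 x2 - v3 x1 x2
theorem h189 (h : In b E x1 x2) : Enc S E (t189 b) (v189 x1 x2) := enc_sub (h24 h) (h3 h)

def t190 (b : Bx) : TM := tmul S (t189 b) (t131 b)
noncomputable def v190 (x1 x2 : ℝ) : ℝ := v189 x1 x2 * v131 x1 x2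
theorem h190 (h : In b E x1 x2) : Enc S E (t190 b) (v190 x1 x2) := enc_mul hS (h189 h) (h131 h)

def t191 (b : Bx) : TM := tadd (t126 b) (t190 b)
noncomputable def v191 (x1 x2 : ℝ) : ℝ := v126 x1 x2 + v190 x1 x2
theorem h191 (h : In b E x1 x2) : Enc S E (t191 b) (v191 x1 x2) := enc_add (h126 h) (h190 h)

def t192 (b : Bx) : TM := tadd (t191 b) (t49 b)
noncomputable def v192 (x1 x2 : ℝ) : ℝ := v191 x1 x2 + v49 x1 x2
theorem h192 (h : In b E x1 x2) : Enc S E (t192 b) (v192 x1 x2) := enc_add (h191 h) (h49 h)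

def t193 (b : Bx) : TM := tmul S (t72 b) (t188 b)
noncomputable def v193 (x1 x2 : ℝ) : ℝ := v72 x1 x2 * v188 x1 x2
theorem h193 (h : In b E x1 x2) : Enc S E (t193 b) (v193 x1 x2) := enc_mul hS (h72 h) (h188 h)

def t194 (b : Bx) : TM := tsub (t192 b) (t193 b)
noncomputable def v194 (x1 x2 : ℝ) : ℝ := v192 x1 x2 - v193 x1 x2
theorem h194 (h : In b E x1 x2) : Enc S E (t194 b) (v194 x1 x2) := enc_sub (h192 h) (h193 h)

def t195 (b : Bx) : TM := tmul S (t0 b) (t188 b)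
noncomputable def v195 (x1 x2 : ℝ) : ℝ := v0 x1 x2 * v188 x1 x2
theorem h195 (h : In b E x1 x2) : Enc S E (t195 b) (v195 x1 x2) := enc_mul hS (h0 h) (h188 h)

def t196 (b : Bx) : TM := tsub (t195 b) (t39 b)
noncomputable def v196 (x1 x2 : ℝ) : ℝ := v195 x1 x2 - v39 x1 x2
theorem h196 (h : In b E x1 x2) : Enc S E (t196 b) (v196 x1 x2) := enc_sub (h195 h) (h39 h)

def t197 (b : Bx) : TM := tsub (t3 b) (t1 b)
noncomputable def v197 (x1 x2 : ℝ) : ℝ := v3 x1 x2 - v1 x1 x2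
theorem h197 (h : In b E x1 x2) : Enc S E (t197 b) (v197 x1 x2) := enc_sub (h3 h) (h1 h)

def t198 (b : Bx) : TM := qw_t (t0 b) (t32 b) (t197 b) (t146 b) (t161 b) (t194 b) (t196 b)
noncomputable def v198 (x1 x2 : ℝ) : ℝ := qw_v (v0 x1 x2) (v32 x1 x2) (v197 x1 x2) (v146 x1 x2) (v161 x1 x2) (v194 x1 x2) (v196 x1 x2)
theorem h198 (h : In b E x1 x2) : Enc S E (t198 b) (v198 x1 x2) := qw_enc (h0 h) (h32 h) (h197 h) (h146 h) (h161 h) (h194 h) (h196 h)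

def t199 (b : Bx) : TM := tscale 1 4 (t2 b)
noncomputable def v199 (x1 x2 : ℝ) : ℝ := ((1 : ℕ) : ℝ) / ((4 : ℕ) : ℝ) * v2 x1 x2
theorem h199 (h : In b E x1 x2) : Enc S E (t199 b) (v199 x1 x2) := enc_scale 1 (by norm_num) (h2 h)

def t201 (b : Bx) : TM := tsub (t0 b) (t199 b)
noncomputable def v201 (x1 x2 : ℝ) : ℝ := v0 x1 x2 - v199 x1 x2
theorem h201 (h : In b E x1 x2) : Enc S E (t201 b) (v201 x1 x2) := enc_sub (h0 h) (h199 h)

def t203 (b : Bx) : TM := tsub (t32 b) (t199 b)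
noncomputable def v203 (x1 x2 : ℝ) : ℝ := v32 x1 x2 - v199 x1 x2
theorem h203 (h : In b E x1 x2) : Enc S E (t203 b) (v203 x1 x2) := enc_sub (h32 h) (h199 h)

def t205 (b : Bx) : TM := tsub (t199 b) (t1 b)
noncomputable def v205 (x1 x2 : ℝ) : ℝ := v199 x1 x2 - v1 x1 x2
theorem h205 (h : In b E x1 x2) : Enc S E (t205 b) (v205 x1 x2) := enc_sub (h199 h) (h1 h)

def t206 (_b : Bx) : TM := tconst (Nat.div (Nat.mul 1 S) 16) 0 1
noncomputable def v206 (_x1 _x2 : ℝ) : ℝ := ((1 : ℕ) : ℝ) / ((16 : ℕ) : ℝ)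
theorem h206 (_h : In b E x1 x2) : Enc S E (t206 b) (v206 x1 x2) := enc_rat E 1 (by norm_num)

def t207 (b : Bx) : TM := tsub (t25 b) (t206 b)
noncomputable def v207 (x1 x2 : ℝ) : ℝ := v25 x1 x2 - v206 x1 x2
theorem h207 (h : In b E x1 x2) : Enc S E (t207 b) (v207 x1 x2) := enc_sub (h25 h) (h206 h)

def t208 (b : Bx) : TM := tsub (t24 b) (t1 b)
noncomputable def v208 (x1 x2 : ℝ) : ℝ := v24 x1 x2 - v1 x1 x2
theorem h208 (h : In b E x1 x2) : Enc S E (t208 b) (v208 x1 x2) := enc_sub (h24 h) (h1 h)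

def t209 (b : Bx) : TM := tsub (t208 b) (t206 b)
noncomputable def v209 (x1 x2 : ℝ) : ℝ := v208 x1 x2 - v206 x1 x2
theorem h209 (h : In b E x1 x2) : Enc S E (t209 b) (v209 x1 x2) := enc_sub (h208 h) (h206 h)

def t210 (b : Bx) : TM := tsub (t0 b) (t1 b)
noncomputable def v210 (x1 x2 : ℝ) : ℝ := v0 x1 x2 - v1 x1 x2
theorem h210 (h : In b E x1 x2) : Enc S E (t210 b) (v210 x1 x2) := enc_sub (h0 h) (h1 h)

def t211 (b : Bx) : TM := tsub (t54 b) (t53 b)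
noncomputable def v211 (x1 x2 : ℝ) : ℝ := v54 x1 x2 - v53 x1 x2
theorem h211 (h : In b E x1 x2) : Enc S E (t211 b) (v211 x1 x2) := enc_sub (h54 h) (h53 h)

def t212 (b : Bx) : TM := tadd (t138 b) (t9 b)
noncomputable def v212 (x1 x2 : ℝ) : ℝ := v138 x1 x2 + v9 x1 x2
theorem h212 (h : In b E x1 x2) : Enc S E (t212 b) (v212 x1 x2) := enc_add (h138 h) (h9 h)

def t213 (b : Bx) : TM := tneg (t212 b)
noncomputable def v213 (x1 x2 : ℝ) : ℝ := -(v212 x1 x2)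
theorem h213 (h : In b E x1 x2) : Enc S E (t213 b) (v213 x1 x2) := enc_neg (h212 h)

def g0 (b : Bx) : Bool := and (pos (t76 b)) (and (pos (t27 b)) (and (pos (t61 b)) (and (pos (t78 b)) (and (pos (t92 b)) (and (pos (t86 b)) (and (pos (t105 b)) (and (pos (t120 b)) (and (pos (t122 b)) (and (pos (t47 b)) (and (pos (t176 b)) (and (pos (t37 b)) (or (pos (t208 b)) (pos (t198 b))))))))))))))

def l0 (b : Bx) : Nat := cond (g0 b) 0 (pickb 1 (t198 b) b)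

def P0 (x1 x2 : ℝ) : Prop := 0 < v76 x1 x2 ∧ 0 < v27 x1 x2 ∧ 0 < v61 x1 x2 ∧ 0 < v78 x1 x2 ∧ 0 < v92 x1 x2 ∧ 0 < v86 x1 x2 ∧ 0 < v105 x1 x2 ∧ 0 < v120 x1 x2 ∧ 0 < v122 x1 x2 ∧ 0 < v47 x1 x2 ∧ 0 < v176 x1 x2 ∧ 0 < v37 x1 x2 ∧ (0 < v208 x1 x2 ∨ 0 < v198 x1 x2)

theorem l0_sound (h : In b E x1 x2) (e : l0 b = 0) : P0 x1 x2 := by
  have e1 : g0 b = true := by
    rcases e2 : g0 b with _ | _
    · unfold l0 at e; rw [e2, cond_false] at e; exact absurd e (pickb_ne _ _ _)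
    · rfl
  exact ⟨pos_sound hS (h76 h) (Bool.and_eq_true_iff.mp e1).1, ⟨pos_sound hS (h27 h) (Bool.and_eq_true_iff.mp (Bool.and_eq_true_iff.mp e1).2).1, ⟨pos_sound hS (h61 h) (Bool.and_eq_true_iff.mp (Bool.and_eq_true_iff.mp (Bool.and_eq_true_iff.mp e1).2).2).1, ⟨pos_sound hS (h78 h) (Bool.and_eq_true_iff.mp (Bool.and_eq_true_iff.mp (Bool.and_eq_true_iff.mp (Bool.and_eq_true_iff.mp e1).2).2).2).1, ⟨pos_sound hS (h92 h) (Bool.and_eq_true_iff.mp (Bool.and_eq_true_iff.mp (Bool.and_eq_true_iff.mp (Bool.and_eq_true_iff.mp (Bool.and_eq_true_iff.mp e1).2).2).2).2).1, ⟨pos_sound hS (h86 h) (Bool.and_eq_true_iff.mp (Bool.and_eq_true_iff.mp (Bool.and_eq_true_iff.mp (Bool.and_eq_true_iff.mp (Bool.and_eq_true_iff.mp (Bool.and_eq_true_iff.mp e1).2).2).2).2).2).1, ⟨pos_sound hS (h105 h) (Bool.and_eq_true_iff.mp (Bool.and_eq_true_iff.mp (Bool.and_eq_true_iff.mp (Bool.and_eq_true_iff.mp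 (Bool.and_eq_true_iff.mp (Bool.and_eq_true_iff.mp (Bool.and_eq_true_iff.mp e1).2).2).2).2).2).2).1, ⟨pos_sound hS (h120 h) (Bool.and_eq_true_iff.mp (Bool.and_eq_true_iff.mp (Bool.and_eq_true_iff.mp (Bool.and_eq_true_iff.mp (Bool.and_eq_true_iff.mp (Bool.and_eq_true_iff.mp (Bool.and_eq_true_iff.mp (Bool.and_eq_true_iff.mp e1).2).2).2).2).2).2).2).1, ⟨pos_sound hS (h122 h) (Bool.and_eq_true_iff.mp (Bool.and_eq_true_iff.mp (Bool.and_eq_true_iff.mp (Bool.and_eq_true_iff.mp (Bool.and_eq_true_iff.mp (Bool.and_eq_true_iff.mp (Bool.and_eq_true_iff.mp (Bool.and_eq_true_iff.mp (Bool.and_eq_true_iff.mp e1).2).2).2).2).2).2).2).2).1, ⟨pos_sound hS (h47 h) (Bool.and_eq_true_iff.mp (Bool.and_eq_true_iff.mp (Bool.and_eq_true_iff.mp (Bool.and_eq_true_iff.mp (Bool.and_eq_true_iff.mp (Bool.and_eq_true_iff.mp (Bool.and_eq_true_iff.mp (Bool.and_eq_true_iff.mp (Bool.and_eq_true_iff.mp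 (Bool.and_eq_true_iff.mp e1).2).2).2).2).2).2).2).2).2).1, ⟨pos_sound hS (h176 h) (Bool.and_eq_true_iff.mp (Bool.and_eq_true_iff.mp (Bool.and_eq_true_iff.mp (Bool.and_eq_true_iff.mp (Bool.and_eq_true_iff.mp (Bool.and_eq_true_iff.mp (Bool.and_eq_true_iff.mp (Bool.and_eq_true_iff.mp (Bool.and_eq_true_iff.mp (Bool.and_eq_true_iff.mp (Bool.and_eq_true_iff.mp e1).2).2).2).2).2).2).2).2).2).2).1, ⟨pos_sound hS (h37 h) (Bool.and_eq_true_iff.mp (Bool.and_eq_true_iff.mp (Bool.and_eq_true_iff.mp (Bool.and_eq_true_iff.mp (Bool.and_eq_true_iff.mp (Bool.and_eq_true_iff.mp (Bool.and_eq_true_iff.mp (Bool.and_eq_true_iff.mp (Bool.and_eq_true_iff.mp (Bool.and_eq_true_iff.mp (Bool.and_eq_true_iff.mp (Bool.and_eq_true_iff.mp e1).2).2).2).2).2).2).2).2).2).2).2).1, ((Bool.or_eq_true_iff.mp (Bool.and_eq_true_iff.mp (Bool.and_eq_true_iff.mp (Bool.and_eq_true_iff.mp (Bool.and_eq_true_iff.mp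 (Bool.and_eq_true_iff.mp (Bool.and_eq_true_iff.mp (Bool.and_eq_true_iff.mp (Bool.and_eq_true_iff.mp (Bool.and_eq_true_iff.mp (Bool.and_eq_true_iff.mp (Bool.and_eq_true_iff.mp (Bool.and_eq_true_iff.mp e1).2).2).2).2).2).2).2).2).2).2).2).2).imp (fun a => pos_sound hS (h208 h) a) (fun a => pos_sound hS (h198 h) a))⟩⟩⟩⟩⟩⟩⟩⟩⟩⟩⟩⟩

def g1 (b : Bx) : Bool := or (pos (t201 b)) (or (pos (t203 b)) (or (pos (t205 b)) (or (pos (t148 b)) (or (pos (t207 b)) (or (pos (t209 b)) (or (pos (t210 b)) (or (pos (t211 b)) (pos (t213 b)))))))))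

def l1 (b : Bx) : Nat := cond (g1 b) 0 (l0 b)

def P1 (x1 x2 : ℝ) : Prop := (0 < v201 x1 x2 ∨ 0 < v203 x1 x2 ∨ 0 < v205 x1 x2 ∨ 0 < v148 x1 x2 ∨ 0 < v207 x1 x2 ∨ 0 < v209 x1 x2 ∨ 0 < v210 x1 x2 ∨ 0 < v211 x1 x2 ∨ 0 < v213 x1 x2) ∨ (P0 x1 x2)

theorem l1_sound (h : In b E x1 x2) (e : l1 b = 0) : P1 x1 x2 := by
  unfold l1 at e
  rcases e1 : g1 b with _ | _
  · rw [e1, cond_false] at e
    have z0 : l0 b = 0 := e
    exact Or.inr (l0_sound h z0)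
  · exact Or.inl (((Bool.or_eq_true_iff.mp e1).imp (fun a => pos_sound hS (h201 h) a) (fun a => ((Bool.or_eq_true_iff.mp a).imp (fun a => pos_sound hS (h203 h) a) (fun a => ((Bool.or_eq_true_iff.mp a).imp (fun a => pos_sound hS (h205 h) a) (fun a => ((Bool.or_eq_true_iff.mp a).imp (fun a => pos_sound hS (h148 h) a) (fun a => ((Bool.or_eq_true_iff.mp a).imp (fun a => pos_sound hS (h207 h) a) (fun a => ((Bool.or_eq_true_iff.mp a).imp (fun a => pos_sound hS (h209 h) a) (fun a => ((Bool.or_eq_true_iff.mp a).imp (fun a => pos_sound hS (h210 h) a) (fun a => ((Bool.or_eq_true_iff.mp a).imp (fun a => pos_sound hS (h211 h) a) (fun a => pos_sound hS (h213 h) a)))))))))))))))))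

def f (b : Bx) : Nat := l1 b

/-- the statement -/
def Q (x1 x2 : ℝ) : Prop := P1 x1 x2

theorem f_sound (b : Bx) (hb : f b = 0) (x1 x2 : ℝ) (hm : Mem S b x1 x2) : Q x1 x2 := by
  obtain ⟨E, h⟩ := pt_of_mem hm
  have h : In b E x1 x2 := h
  unfold f at hb
  have e := hb
  have z1 : l1 b = 0 := e
  exact (l1_sound h z1)

/-- the box -/
def b0 : Bx := ⟨232471924, 0, 232471926, 697415773, 0, 232471926⟩

theorem chk_all {n : ℕ} {b : Bx} (h : chk f n b = true) (x1 x2 : ℝ) (hm : Mem S b x1 x2) : Q x1 x2 :=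
  chk_sound (fun b hb x1 x2 hm => f_sound b hb x1 x2 hm) n b h x1 x2 hm


end Pool.Agent.Strip051.LB.ChB00V2_pm_001
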