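import Pool.Agent.Strip051.LB.ChB00V2_pm_001.Defs
import Pool.Agent.Strip051.LB.Slope
import Pool.Agent.Strip051.LB.Star
import Pool.Agent.Strip051.LB.Cf

/-! # LINE tight chart ChB00V2_pm_001: slopes -/

namespace Pool.Agent.Strip051.LB.ChB00V2_pm_001

open Pool.Agent.Strip051.LB Pool.Agent.Strip051.LB.Fn Pool.Agent.Strip051.LB.Fc Pool.Agent.StripNear

set_option maxRecDepth 100000
set_option linter.all false

noncomputable def v50 (x1 x2 : ℝ) : ℝ := -(v49 x1 x2)

noncomputable def v55 (x1 x2 : ℝ) : ℝ := v53 x1 x2 - v54 x1 x2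

noncomputable def v57 (x1 x2 : ℝ) : ℝ := (v24 x1 x2) ^ 2

noncomputable def v59 (x1 x2 : ℝ) : ℝ := v5 x1 x2 - v57 x1 x2

noncomputable def v60 (x1 x2 : ℝ) : ℝ := -(v58 x1 x2)

noncomputable def v64 (x1 x2 : ℝ) : ℝ := -(v63 x1 x2)

noncomputable def v67 (x1 x2 : ℝ) : ℝ := (v66 x1 x2) ^ 2

noncomputable def v70 (x1 x2 : ℝ) : ℝ := v52 x1 x2 - v67 x1 x2

noncomputable def v75 (x1 x2 : ℝ) : ℝ := v70 x1 x2 - v73 x1 x2

noncomputable def v80 (x1 x2 : ℝ) : ℝ := -(v18 x1 x2)

noncomputable def v89 (x1 x2 : ℝ) : ℝ := -(v88 x1 x2)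

noncomputable def v90 (x1 x2 : ℝ) : ℝ := v52 x1 x2 - v73 x1 x2

noncomputable def v91 (x1 x2 : ℝ) : ℝ := -(v74 x1 x2)

noncomputable def v95 (x1 x2 : ℝ) : ℝ := -(v94 x1 x2)

noncomputable def v103 (x1 x2 : ℝ) : ℝ := -(v5 x1 x2)

noncomputable def v111 (x1 x2 : ℝ) : ℝ := -(v110 x1 x2)

noncomputable def v112 (x1 x2 : ℝ) : ℝ := v97 x1 x2 * v108 x1 x2

noncomputable def v116 (x1 x2 : ℝ) : ℝ := v113 x1 x2 - v114 x1 x2

noncomputable def v117 (x1 x2 : ℝ) : ℝ := -(v112 x1 x2)

noncomputable def v139 (x1 x2 : ℝ) : ℝ := v7 x1 x2 * v24 x1 x2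

noncomputable def v140 (x1 x2 : ℝ) : ℝ := v29 x1 x2 * v0 x1 x2

noncomputable def v142 (x1 x2 : ℝ) : ℝ := -(v141 x1 x2)

noncomputable def v143 (x1 x2 : ℝ) : ℝ := v139 x1 x2 + v140 x1 x2

noncomputable def v145 (x1 x2 : ℝ) : ℝ := v143 x1 x2 * v136 x1 x2

noncomputable def v147 (x1 x2 : ℝ) : ℝ := v145 x1 x2 - v9 x1 x2

noncomputable def v164 (x1 x2 : ℝ) : ℝ := -(v163 x1 x2)

noncomputable def v181 (x1 x2 : ℝ) : ℝ := -(v180 x1 x2)

noncomputable def v182 (x1 x2 : ℝ) : ℝ := v169 x1 x2 * v178 x1 x2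

noncomputable def v186 (x1 x2 : ℝ) : ℝ := v183 x1 x2 - v184 x1 x2

noncomputable def v187 (x1 x2 : ℝ) : ℝ := -(v182 x1 x2)

structure Cx (x1 x2 : ℝ) : Prop where
  hc : v7 x1 x2 ^ 2 + x1 ^ 2 = 1
  p27 : 0 < v27 x1 x2
  p61 : 0 < v61 x1 x2
  p78 : 0 < v78 x1 x2
  p92 : 0 < v92 x1 x2
  p86 : 0 < v86 x1 x2
  p105 : 0 < v105 x1 x2
  p120 : 0 < v120 x1 x2
  p122 : 0 < v122 x1 x2
  p47 : 0 < v47 x1 x2
  p176 : 0 < v176 x1 x2
  p37 : 0 < v37 x1 x2

variable {x1 x2 : ℝ}

theorem s3q (x1 x2 : ℝ) : v2 x1 x2 ^ 2 = 3 := by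
  rw [v2]; exact s3sq

theorem s3ne (x1 x2 : ℝ) : v2 x1 x2 ≠ 0 := by
  rw [v2]; positivity

theorem s1 (c : Cx x1 x2) : v1 x1 x2 = v24 x1 x2 + v25 x1 x2 * v5 x1 x2 := by
  simp only [v0, v1, v5, v12, v24, v25]
  (try push_cast)
  first | ring | grind

theorem s26 (c : Cx x1 x2) : v26 x1 x2 = v57 x1 x2 + v25 x1 x2 * v58 x1 x2 := by
  have a0 : (v1 x1 x2 + v24 x1 x2) * v1 x1 x2 = (v1 x1 x2 + v24 x1 x2) * (v24 x1 x2 + v25 x1 x2 * v5 x1 x2) := congrArg (fun z => (v1 x1 x2 + v24 x1 x2) * z) (s1 c)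
  try simp only [v0, v1, v5, v12, v24, v25, v26, v57, v58] at a0
  simp only [v0, v1, v5, v12, v24, v25, v26, v57, v58]
  (try push_cast at a0 ⊢)
  first | linear_combination a0 | ring | grind

theorem s27 (c : Cx x1 x2) : v27 x1 x2 = v59 x1 x2 + v25 x1 x2 * v60 x1 x2 := by
  have a1 := s26 c
  try simp only [v0, v1, v5, v12, v24, v25, v27, v58, v59, v60] at a1
  simp only [v0, v1, v5, v12, v24, v25, v27, v58, v59, v60]
  (try push_cast at a1 ⊢)
  first | linear_combination -a1 | ring | grind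

theorem q28 (c : Cx x1 x2) : v59 x1 x2 = v29 x1 x2 ^ 2 := by
  have hc := c.hc
  have h3 := s3q x1 x2
  simp only [v0, v3, v5, v10, v12, v14, v16, v24, v29, v57, v59] at hc ⊢
  push_cast at hc ⊢
  grind

theorem s28 (c : Cx x1 x2) : v28 x1 x2 = v29 x1 x2 + v25 x1 x2 * v64 x1 x2 := by
  have a0 := s27 c
  have e : 0 < Real.sqrt (v27 x1 x2) + v29 x1 x2 := by
    have e := c.p61
    simp only [v5, v16, v27, v28, v29, v61] at e ⊢
    push_cast at e ⊢
    linarith
  have b := sl_sqrt a0 (q28 c) (le_of_lt c.p27) e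
  clear a0
  try simp only [v0, v1, v5, v12, v16, v24, v25, v27, v28, v29, v58, v59, v60, v61, v62, v63, v64] at b
  simp only [v0, v1, v5, v12, v16, v24, v25, v27, v28, v29, v58, v59, v60, v61, v62, v63, v64]
  (try push_cast at b ⊢)
  first | linear_combination b | ring | grind

theorem s30 (c : Cx x1 x2) : v30 x1 x2 = v65 x1 x2 + v25 x1 x2 * v63 x1 x2 := by
  have a0 := s28 c
  try simp only [v0, v1, v12, v16, v24, v25, v29, v30, v64, v65] at a0
  simp only [v0, v1, v12, v16, v24, v25, v29, v30, v64, v65]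
  (try push_cast at a0 ⊢)
  first | linear_combination -a0 | ring | grind

theorem s31 (c : Cx x1 x2) : v31 x1 x2 = v66 x1 x2 + v25 x1 x2 * v63 x1 x2 := by
  have a0 := s30 c
  try simp only [v0, v1, v12, v16, v24, v25, v29, v30, v31, v65, v66] at a0
  simp only [v0, v1, v12, v16, v24, v25, v29, v30, v31, v65, v66]
  (try push_cast at a0 ⊢)
  first | linear_combination a0 | ring | grind

theorem s32 (c : Cx x1 x2) : v32 x1 x2 = v72 x1 x2 + v25 x1 x2 * v5 x1 x2 := by
  have a0 := s1 c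
  try simp only [v0, v1, v5, v12, v24, v25, v32, v72] at a0
  simp only [v0, v1, v5, v12, v24, v25, v32, v72]
  (try push_cast at a0 ⊢)
  first | linear_combination a0 | ring | grind

theorem s40 (c : Cx x1 x2) : v40 x1 x2 = v162 x1 x2 + v25 x1 x2 * v164 x1 x2 := by
  have a0 := s28 c
  try simp only [v0, v1, v12, v16, v24, v25, v29, v40, v64, v162, v163, v164] at a0
  simp only [v0, v1, v12, v16, v24, v25, v29, v40, v64, v162, v163, v164]
  (try push_cast at a0 ⊢)
  first | linear_combination (2 : ℝ) * a0 | ring | grind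

theorem s41 (c : Cx x1 x2) : v41 x1 x2 = v165 x1 x2 + v25 x1 x2 * v164 x1 x2 := by
  have a1 := s40 c
  try simp only [v0, v1, v5, v12, v16, v24, v25, v29, v40, v41, v162, v163, v164, v165] at a1
  simp only [v0, v1, v5, v12, v16, v24, v25, v29, v40, v41, v162, v163, v164, v165]
  (try push_cast at a1 ⊢)
  first | linear_combination a1 | ring | grind

theorem s42 (c : Cx x1 x2) : v42 x1 x2 = v166 x1 x2 + v25 x1 x2 * v2 x1 x2 := by
  have a1 : (v2 x1 x2) * v1 x1 x2 = (v2 x1 x2) * (v24 x1 x2 + v25 x1 x2 * v5 x1 x2) := congrArg (fun z => (v2 x1 x2) * z) (s1 c)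
  try simp only [v0, v1, v2, v5, v12, v24, v25, v42, v166] at a1
  simp only [v0, v1, v2, v5, v12, v24, v25, v42, v166]
  (try push_cast at a1 ⊢)
  first | linear_combination a1 | ring | grind

theorem s43 (c : Cx x1 x2) : v43 x1 x2 = v167 x1 x2 + v25 x1 x2 * v168 x1 x2 := by
  have a0 := s42 c
  have a1 := s28 c
  try simp only [v0, v1, v2, v12, v16, v24, v25, v29, v43, v64, v167, v168] at a0
  try simp only [v0, v1, v2, v12, v16, v24, v25, v29, v43, v64, v167, v168] at a1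
  simp only [v0, v1, v2, v12, v16, v24, v25, v29, v43, v64, v167, v168]
  (try push_cast at a0 a1 ⊢)
  first | linear_combination a0 - a1 | ring | grind

theorem s44 (c : Cx x1 x2) : v44 x1 x2 = v169 x1 x2 + v25 x1 x2 * v173 x1 x2 := by
  have a0 : (v43 x1 x2) * v41 x1 x2 = (v43 x1 x2) * (v165 x1 x2 + v25 x1 x2 * v164 x1 x2) := congrArg (fun z => (v43 x1 x2) * z) (s41 c)
  have a1 : (v165 x1 x2) * v43 x1 x2 = (v165 x1 x2) * (v167 x1 x2 + v25 x1 x2 * v168 x1 x2) := congrArg (fun z => (v165 x1 x2) * z) (s43 c)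
  try simp only [v0, v1, v2, v5, v12, v16, v24, v25, v29, v40, v41, v43, v44, v162, v163, v164, v165, v167, v168, v169, v170, v172, v173] at a0
  try simp only [v0, v1, v2, v5, v12, v16, v24, v25, v29, v40, v41, v43, v44, v162, v163, v164, v165, v167, v168, v169, v170, v172, v173] at a1
  simp only [v0, v1, v2, v5, v12, v16, v24, v25, v29, v40, v41, v43, v44, v162, v163, v164, v165, v167, v168, v169, v170, v172, v173]
  (try push_cast at a0 a1 ⊢)
  first | linear_combination a0 + a1 | ring | grind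

theorem s45 (c : Cx x1 x2) : v45 x1 x2 = v174 x1 x2 + v25 x1 x2 * v2 x1 x2 := by
  have a1 := s42 c
  try simp only [v0, v1, v2, v5, v12, v24, v25, v45, v174] at a1
  simp only [v0, v1, v2, v5, v12, v24, v25, v45, v174]
  (try push_cast at a1 ⊢)
  first | linear_combination a1 | ring | grind

theorem s46 (c : Cx x1 x2) : v46 x1 x2 = v175 x1 x2 + v25 x1 x2 * v168 x1 x2 := by
  have a0 := s45 c
  have a1 := s28 c
  try simp only [v0, v1, v2, v5, v12, v16, v24, v25, v29, v45, v46, v64, v168, v174, v175] at a0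
  try simp only [v0, v1, v2, v5, v12, v16, v24, v25, v29, v45, v46, v64, v168, v174, v175] at a1
  simp only [v0, v1, v2, v5, v12, v16, v24, v25, v29, v45, v46, v64, v168, v174, v175]
  (try push_cast at a0 a1 ⊢)
  first | linear_combination a0 - a1 | ring | grind

theorem s47 (c : Cx x1 x2) : v47 x1 x2 = v176 x1 x2 + v25 x1 x2 * v177 x1 x2 := by
  have a0 := s46 c
  try simp only [v0, v1, v2, v5, v12, v16, v24, v25, v29, v45, v46, v47, v168, v174, v175, v176, v177] at a0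
  simp only [v0, v1, v2, v5, v12, v16, v24, v25, v29, v45, v46, v47, v168, v174, v175, v176, v177]
  (try push_cast at a0 ⊢)
  first | linear_combination (2 : ℝ) * a0 | ring | grind

theorem s48 (c : Cx x1 x2) : v48 x1 x2 = v178 x1 x2 + v25 x1 x2 * v181 x1 x2 := by
  have a0 := s47 c
  have b := sl_inv a0 (c.p47).ne' (c.p176).ne'
  clear a0
  try simp only [v0, v1, v2, v5, v12, v16, v24, v25, v29, v45, v46, v47, v48, v168, v174, v175, v176, v177, v178, v179, v180, v181] at b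
  simp only [v0, v1, v2, v5, v12, v16, v24, v25, v29, v45, v46, v47, v48, v168, v174, v175, v176, v177, v178, v179, v180, v181]
  (try push_cast at b ⊢)
  first | linear_combination b | ring | grind

theorem s49 (c : Cx x1 x2) : v49 x1 x2 = v182 x1 x2 + v25 x1 x2 * v186 x1 x2 := by
  have a0 : (v48 x1 x2) * v44 x1 x2 = (v48 x1 x2) * (v169 x1 x2 + v25 x1 x2 * v173 x1 x2) := congrArg (fun z => (v48 x1 x2) * z) (s44 c)
  have a1 : (v169 x1 x2) * v48 x1 x2 = (v169 x1 x2) * (v178 x1 x2 + v25 x1 x2 * v181 x1 x2) := congrArg (fun z => (v169 x1 x2) * z) (s48 c)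
  try simp only [v0, v1, v12, v24, v25, v49, v173, v181, v182, v183, v184, v186] at a0
  try simp only [v0, v1, v12, v24, v25, v49, v173, v181, v182, v183, v184, v186] at a1
  simp only [v0, v1, v12, v24, v25, v49, v173, v181, v182, v183, v184, v186]
  (try push_cast at a0 a1 ⊢)
  first | linear_combination a0 + a1 | ring | grind

theorem s50 (c : Cx x1 x2) : v50 x1 x2 = v187 x1 x2 + v25 x1 x2 * v188 x1 x2 := by
  have a0 := s49 c
  try simp only [v0, v1, v12, v24, v25, v50, v186, v187, v188] at a0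
  simp only [v0, v1, v12, v24, v25, v50, v186, v187, v188]
  (try push_cast at a0 ⊢)
  first | linear_combination -a0 | ring | grind

theorem s51 (c : Cx x1 x2) : v51 x1 x2 = v67 x1 x2 + v25 x1 x2 * v69 x1 x2 := by
  have a0 : (v31 x1 x2 + v66 x1 x2) * v31 x1 x2 = (v31 x1 x2 + v66 x1 x2) * (v66 x1 x2 + v25 x1 x2 * v63 x1 x2) := congrArg (fun z => (v31 x1 x2 + v66 x1 x2) * z) (s31 c)
  try simp only [v0, v1, v12, v16, v24, v25, v29, v30, v31, v51, v65, v66, v67, v68, v69] at a0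
  simp only [v0, v1, v12, v16, v24, v25, v29, v30, v31, v51, v65, v66, v67, v68, v69]
  (try push_cast at a0 ⊢)
  first | linear_combination a0 | ring | grind

theorem s53 (c : Cx x1 x2) : v53 x1 x2 = v70 x1 x2 + v25 x1 x2 * v71 x1 x2 := by
  have a1 := s51 c
  try simp only [v0, v1, v12, v24, v25, v52, v53, v70, v71] at a1
  simp only [v0, v1, v12, v24, v25, v52, v53, v70, v71]
  (try push_cast at a1 ⊢)
  first | linear_combination -a1 | ring | grind

theorem s54 (c : Cx x1 x2) : v54 x1 x2 = v73 x1 x2 + v25 x1 x2 * v74 x1 x2 := by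
  have a0 : (v32 x1 x2 + v72 x1 x2) * v32 x1 x2 = (v32 x1 x2 + v72 x1 x2) * (v72 x1 x2 + v25 x1 x2 * v5 x1 x2) := congrArg (fun z => (v32 x1 x2 + v72 x1 x2) * z) (s32 c)
  try simp only [v0, v1, v5, v12, v24, v25, v32, v54, v72, v73, v74] at a0
  simp only [v0, v1, v5, v12, v24, v25, v32, v54, v72, v73, v74]
  (try push_cast at a0 ⊢)
  first | linear_combination a0 | ring | grind

theorem s55 (c : Cx x1 x2) : v55 x1 x2 = v75 x1 x2 + v25 x1 x2 * v76 x1 x2 := by
  have a0 := s53 c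
  have a1 := s54 c
  try simp only [v0, v1, v12, v24, v25, v32, v52, v53, v55, v70, v71, v72, v74, v75, v76] at a0
  try simp only [v0, v1, v12, v24, v25, v32, v52, v53, v55, v70, v71, v72, v74, v75, v76] at a1
  simp only [v0, v1, v12, v24, v25, v32, v52, v53, v55, v70, v71, v72, v74, v75, v76]
  (try push_cast at a0 a1 ⊢)
  first | linear_combination a0 - a1 | ring | grind

theorem s78 (c : Cx x1 x2) : v78 x1 x2 = v90 x1 x2 + v25 x1 x2 * v91 x1 x2 := by
  have a1 := s54 c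
  try simp only [v0, v1, v12, v24, v25, v32, v52, v72, v74, v78, v90, v91] at a1
  simp only [v0, v1, v12, v24, v25, v32, v52, v72, v74, v78, v90, v91]
  (try push_cast at a1 ⊢)
  first | linear_combination -a1 | ring | grind

theorem q79 (c : Cx x1 x2) : v90 x1 x2 = v80 x1 x2 ^ 2 := by
  have hc := c.hc
  have h3 := s3q x1 x2
  simp only [v0, v3, v10, v11, v12, v13, v18, v24, v52, v72, v73, v80, v90] at hc ⊢
  push_cast at hc ⊢
  grind

theorem s79 (c : Cx x1 x2) : v79 x1 x2 = v80 x1 x2 + v25 x1 x2 * v95 x1 x2 := by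
  have a0 := s78 c
  have e : 0 < Real.sqrt (v78 x1 x2) + v80 x1 x2 := by
    have e := c.p92
    simp only [v52, v78, v79, v80, v92] at e ⊢
    push_cast at e ⊢
    linarith
  have b := sl_sqrt a0 (q79 c) (le_of_lt c.p78) e
  clear a0
  try simp only [v0, v1, v12, v24, v25, v32, v52, v72, v74, v78, v79, v80, v90, v91, v92, v93, v94, v95] at b
  simp only [v0, v1, v12, v24, v25, v32, v52, v72, v74, v78, v79, v80, v90, v91, v92, v93, v94, v95]
  (try push_cast at b ⊢)
  first | linear_combination b | ring | grind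

theorem s82 (c : Cx x1 x2) : v82 x1 x2 = v96 x1 x2 + v25 x1 x2 * v95 x1 x2 := by
  have a0 := s79 c
  try simp only [v0, v1, v12, v24, v25, v80, v81, v82, v95, v96] at a0
  simp only [v0, v1, v12, v24, v25, v80, v81, v82, v95, v96]
  (try push_cast at a0 ⊢)
  first | linear_combination a0 | ring | grind

theorem s83 (c : Cx x1 x2) : v83 x1 x2 = v97 x1 x2 + v25 x1 x2 * v101 x1 x2 := by
  have a0 : (v82 x1 x2) * v54 x1 x2 = (v82 x1 x2) * (v73 x1 x2 + v25 x1 x2 * v74 x1 x2) := congrArg (fun z => (v82 x1 x2) * z) (s54 c)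
  have a1 : (v73 x1 x2) * v82 x1 x2 = (v73 x1 x2) * (v96 x1 x2 + v25 x1 x2 * v95 x1 x2) := congrArg (fun z => (v73 x1 x2) * z) (s82 c)
  try simp only [v0, v1, v12, v24, v25, v32, v72, v74, v81, v82, v83, v95, v96, v97, v98, v99, v101] at a0
  try simp only [v0, v1, v12, v24, v25, v32, v72, v74, v81, v82, v83, v95, v96, v97, v98, v99, v101] at a1
  simp only [v0, v1, v12, v24, v25, v32, v72, v74, v81, v82, v83, v95, v96, v97, v98, v99, v101]
  (try push_cast at a0 a1 ⊢)
  first | linear_combination a0 + a1 | ring | grind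

theorem s84 (c : Cx x1 x2) : v84 x1 x2 = v102 x1 x2 + v25 x1 x2 * v103 x1 x2 := by
  have a1 := s32 c
  try simp only [v0, v1, v2, v3, v5, v12, v24, v25, v32, v72, v84, v102, v103] at a1
  simp only [v0, v1, v2, v3, v5, v12, v24, v25, v32, v72, v84, v102, v103]
  (try push_cast at a1 ⊢)
  first | linear_combination -a1 | ring | grind

theorem s85 (c : Cx x1 x2) : v85 x1 x2 = v104 x1 x2 + v25 x1 x2 * v5 x1 x2 := by
  have a1 := s32 c
  try simp only [v0, v1, v2, v3, v5, v12, v24, v25, v32, v72, v85, v104] at a1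
  simp only [v0, v1, v2, v3, v5, v12, v24, v25, v32, v72, v85, v104]
  (try push_cast at a1 ⊢)
  first | linear_combination a1 | ring | grind

theorem s86 (c : Cx x1 x2) : v86 x1 x2 = v105 x1 x2 + v25 x1 x2 * v107 x1 x2 := by
  have a0 : (v85 x1 x2) * v84 x1 x2 = (v85 x1 x2) * (v102 x1 x2 + v25 x1 x2 * v103 x1 x2) := congrArg (fun z => (v85 x1 x2) * z) (s84 c)
  have a1 : (v102 x1 x2) * v85 x1 x2 = (v102 x1 x2) * (v104 x1 x2 + v25 x1 x2 * v5 x1 x2) := congrArg (fun z => (v102 x1 x2) * z) (s85 c)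
  try simp only [v0, v1, v2, v3, v5, v12, v24, v25, v32, v72, v84, v85, v86, v102, v103, v104, v105, v107] at a0
  try simp only [v0, v1, v2, v3, v5, v12, v24, v25, v32, v72, v84, v85, v86, v102, v103, v104, v105, v107] at a1
  simp only [v0, v1, v2, v3, v5, v12, v24, v25, v32, v72, v84, v85, v86, v102, v103, v104, v105, v107]
  (try push_cast at a0 a1 ⊢)
  first | linear_combination a0 + a1 | ring | grind

theorem s87 (c : Cx x1 x2) : v87 x1 x2 = v108 x1 x2 + v25 x1 x2 * v111 x1 x2 := by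
  have a0 := s86 c
  have b := sl_inv a0 (c.p86).ne' (c.p105).ne'
  clear a0
  try simp only [v0, v1, v2, v3, v12, v24, v25, v32, v72, v85, v87, v102, v107, v108, v109, v110, v111] at b
  simp only [v0, v1, v2, v3, v12, v24, v25, v32, v72, v85, v87, v102, v107, v108, v109, v110, v111]
  (try push_cast at b ⊢)
  first | linear_combination b | ring | grind

theorem s88 (c : Cx x1 x2) : v88 x1 x2 = v112 x1 x2 + v25 x1 x2 * v116 x1 x2 := by
  have a0 : (v87 x1 x2) * v83 x1 x2 = (v87 x1 x2) * (v97 x1 x2 + v25 x1 x2 * v101 x1 x2) := congrArg (fun z => (v87 x1 x2) * z) (s83 c)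
  have a1 : (v97 x1 x2) * v87 x1 x2 = (v97 x1 x2) * (v108 x1 x2 + v25 x1 x2 * v111 x1 x2) := congrArg (fun z => (v97 x1 x2) * z) (s87 c)
  try simp only [v0, v1, v12, v24, v25, v88, v101, v111, v112, v113, v114, v116] at a0
  try simp only [v0, v1, v12, v24, v25, v88, v101, v111, v112, v113, v114, v116] at a1
  simp only [v0, v1, v12, v24, v25, v88, v101, v111, v112, v113, v114, v116]
  (try push_cast at a0 a1 ⊢)
  first | linear_combination a0 + a1 | ring | grind

theorem s89 (c : Cx x1 x2) : v89 x1 x2 = v117 x1 x2 + v25 x1 x2 * v118 x1 x2 := by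
  have a0 := s88 c
  try simp only [v0, v1, v12, v24, v25, v89, v116, v117, v118] at a0
  simp only [v0, v1, v12, v24, v25, v89, v116, v117, v118]
  (try push_cast at a0 ⊢)
  first | linear_combination -a0 | ring | grind

theorem s132 (c : Cx x1 x2) : v132 x1 x2 = v139 x1 x2 + v25 x1 x2 * v7 x1 x2 := by
  have a1 : (v7 x1 x2) * v1 x1 x2 = (v7 x1 x2) * (v24 x1 x2 + v25 x1 x2 * v5 x1 x2) := congrArg (fun z => (v7 x1 x2) * z) (s1 c)
  try simp only [v0, v1, v5, v12, v24, v25, v132, v139] at a1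
  simp only [v0, v1, v5, v12, v24, v25, v132, v139]
  (try push_cast at a1 ⊢)
  first | linear_combination a1 | ring | grind

theorem s133 (c : Cx x1 x2) : v133 x1 x2 = v140 x1 x2 + v25 x1 x2 * v142 x1 x2 := by
  have a0 : (v0 x1 x2) * v28 x1 x2 = (v0 x1 x2) * (v29 x1 x2 + v25 x1 x2 * v64 x1 x2) := congrArg (fun z => (v0 x1 x2) * z) (s28 c)
  try simp only [v0, v1, v12, v16, v24, v25, v29, v64, v133, v140, v141, v142] at a0
  simp only [v0, v1, v12, v16, v24, v25, v29, v64, v133, v140, v141, v142]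
  (try push_cast at a0 ⊢)
  first | linear_combination a0 | ring | grind

theorem s135 (c : Cx x1 x2) : v135 x1 x2 = v143 x1 x2 + v25 x1 x2 * v144 x1 x2 := by
  have a0 := s132 c
  have a1 := s133 c
  try simp only [v0, v1, v12, v24, v25, v135, v142, v143, v144] at a0
  try simp only [v0, v1, v12, v24, v25, v135, v142, v143, v144] at a1
  simp only [v0, v1, v12, v24, v25, v135, v142, v143, v144]
  (try push_cast at a0 a1 ⊢)
  first | linear_combination a0 + a1 | ring | grind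

theorem s137 (c : Cx x1 x2) : v137 x1 x2 = v145 x1 x2 + v25 x1 x2 * v146 x1 x2 := by
  have a0 : (v136 x1 x2) * v135 x1 x2 = (v136 x1 x2) * (v143 x1 x2 + v25 x1 x2 * v144 x1 x2) := congrArg (fun z => (v136 x1 x2) * z) (s135 c)
  try simp only [v0, v1, v12, v24, v25, v135, v137, v143, v144, v145, v146] at a0
  simp only [v0, v1, v12, v24, v25, v135, v137, v143, v144, v145, v146]
  (try push_cast at a0 ⊢)
  first | linear_combination a0 | ring | grind

theorem s138 (c : Cx x1 x2) : v138 x1 x2 = v147 x1 x2 + v25 x1 x2 * v146 x1 x2 := by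
  have a0 := s137 c
  try simp only [v0, v1, v9, v12, v24, v25, v138, v147] at a0
  simp only [v0, v1, v9, v12, v24, v25, v138, v147]
  (try push_cast at a0 ⊢)
  first | linear_combination a0 | ring | grind

theorem s148 (c : Cx x1 x2) : v148 x1 x2 = v189 x1 x2 + v25 x1 x2 * v5 x1 x2 := by
  have a0 := s1 c
  try simp only [v0, v1, v2, v3, v5, v12, v24, v25, v148, v189] at a0
  simp only [v0, v1, v2, v3, v5, v12, v24, v25, v148, v189]
  (try push_cast at a0 ⊢)
  first | linear_combination a0 | ring | grind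

theorem bD (c : Cx x1 x2) : v75 x1 x2 = 0 := by
  have hc := c.hc
  have h3 := s3q x1 x2
  simp only [v0, v3, v10, v12, v14, v16, v24, v29, v52, v65, v66, v67, v70, v72, v73, v75] at hc ⊢
  push_cast at hc ⊢
  grind

theorem sD (c : Cx x1 x2) : v55 x1 x2 = v25 x1 x2 * v76 x1 x2 := by
  have h := s55 c
  rw [bD c, zero_add] at h
  exact h

theorem s126 (c : Cx x1 x2) : v126 x1 x2 = v112 x1 x2 + v25 x1 x2 * v131 x1 x2 := by
  have hA := s89 c
  have hd := sD c
  have hs := c.p120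
  have hc : v79 x1 x2 ^ 2 = v78 x1 x2 := by
    rw [v79]; exact Real.sq_sqrt (le_of_lt c.p78)
  have hx : v79 x1 x2 - v77 x1 x2 = v55 x1 x2 * (v120 x1 x2)⁻¹ := by
    have g : v79 x1 x2 ^ 2 - v77 x1 x2 ^ 2 = v55 x1 x2 := by
      rw [hc]; simp only [v0, v1, v30, v31, v32, v51, v52, v53, v54, v55, v77, v78, v120]; push_cast; ring
    have g3 : v120 x1 x2 = v79 x1 x2 + v77 x1 x2 := by
      simp only [v0, v1, v30, v31, v32, v51, v52, v53, v54, v55, v77, v78, v120]; try push_cast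
      try ring
    have g2 : 0 < v79 x1 x2 + v77 x1 x2 := by rw [← g3]; exact hs
    rw [g3]; exact diff_of_sq g g2
  have hy : v119 x1 x2 * (v79 x1 x2 - v77 x1 x2) = v119 x1 x2 * (v55 x1 x2 * (v120 x1 x2)⁻¹) := congrArg (fun z => v119 x1 x2 * z) hx
  have hK : v119 x1 x2 * (v120 x1 x2)⁻¹ * v55 x1 x2 = v119 x1 x2 * (v120 x1 x2)⁻¹ * (v25 x1 x2 * v76 x1 x2) := congrArg (fun z => v119 x1 x2 * (v120 x1 x2)⁻¹ * z) hd
  try simp only [v0, v1, v12, v24, v25, v32, v52, v53, v55, v71, v72, v74, v76, v77, v89, v117, v118, v120, v123, v124, v126, v127, v128, v129, v131] at hA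
  try simp only [v0, v1, v12, v24, v25, v32, v52, v53, v55, v71, v72, v74, v76, v77, v89, v117, v118, v120, v123, v124, v126, v127, v128, v129, v131] at hy
  try simp only [v0, v1, v12, v24, v25, v32, v52, v53, v55, v71, v72, v74, v76, v77, v89, v117, v118, v120, v123, v124, v126, v127, v128, v129, v131] at hK
  simp only [v0, v1, v12, v24, v25, v32, v52, v53, v55, v71, v72, v74, v76, v77, v89, v117, v118, v120, v123, v124, v126, v127, v128, v129, v131]
  (try push_cast at hA hy hK ⊢)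
  first | linear_combination -(hA - hy - hK) | grind

theorem bE (c : Cx x1 x2) : v147 x1 x2 = 0 := by
  have hc := c.hc
  have h3 := s3q x1 x2
  have g0 : v2 x1 x2 ≠ 0 := s3ne x1 x2
  simp only [v0, v3, v9, v10, v12, v14, v16, v24, v29, v136, v139, v140, v143, v145, v147] at hc ⊢
  push_cast at hc ⊢
  grind

theorem hE (c : Cx x1 x2) : v138 x1 x2 = v25 x1 x2 * v146 x1 x2 := by
  have h := s138 c
  rw [bE c, zero_add] at h
  exact h

theorem bC12 (c : Cx x1 x2) : v0 x1 x2 * v112 x1 x2 - v72 x1 x2 * v39 x1 x2 = 0 := by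
  have hc := c.hc
  have h3 := s3q x1 x2
  have g0 := (c.p37).ne'
  have g1 := (c.p105).ne'
  simp only [v0, v3, v5, v10, v11, v12, v13, v18, v24, v33, v34, v35, v36, v37, v38, v39, v72, v73, v81, v96, v97, v102, v104, v105, v108, v112] at hc g0 g1 ⊢
  push_cast at hc g0 g1 ⊢
  grind

theorem hC12 (c : Cx x1 x2) : v0 x1 x2 * v126 x1 x2 - v32 x1 x2 * v39 x1 x2 = v25 x1 x2 * v161 x1 x2 := by
  have a2 : v0 x1 x2 * v126 x1 x2 = v0 x1 x2 * (v112 x1 x2 + v25 x1 x2 * v131 x1 x2) := congrArg (fun z => v0 x1 x2 * z) (s126 c)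
  have a3 : v39 x1 x2 * v32 x1 x2 = v39 x1 x2 * (v72 x1 x2 + v25 x1 x2 * v5 x1 x2) := congrArg (fun z => v39 x1 x2 * z) (s32 c)
  have b := bC12 c
  try simp only [v0, v1, v5, v12, v24, v25, v32, v72, v118, v126, v131, v160, v161] at a2
  try simp only [v0, v1, v5, v12, v24, v25, v32, v72, v118, v126, v131, v160, v161] at a3
  try simp only [v0, v1, v5, v12, v24, v25, v32, v72, v118, v126, v131, v160, v161] at b
  simp only [v0, v1, v5, v12, v24, v25, v32, v72, v118, v126, v131, v160, v161]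
  (try push_cast at a2 a3 b ⊢)
  first | linear_combination a2 - a3 + b | grind

theorem bC32 (c : Cx x1 x2) : v189 x1 x2 * v112 x1 x2 - v72 x1 x2 * v187 x1 x2 = 0 := by
  have hc := c.hc
  have h3 := s3q x1 x2
  have g0 := (c.p105).ne'
  have g1 := (c.p176).ne'
  simp only [v0, v3, v5, v10, v11, v12, v13, v14, v16, v18, v24, v29, v72, v73, v81, v96, v97, v102, v104, v105, v108, v112, v162, v165, v166, v167, v169, v174, v175, v176, v178, v182, v187, v189] at hc g0 g1 ⊢
  push_cast at hc g0 g1 ⊢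
  grind

theorem hC32 (c : Cx x1 x2) : v148 x1 x2 * v126 x1 x2 - v32 x1 x2 * v50 x1 x2 = v25 x1 x2 * v194 x1 x2 := by
  have a1 : v126 x1 x2 * v148 x1 x2 = v126 x1 x2 * (v189 x1 x2 + v25 x1 x2 * v5 x1 x2) := congrArg (fun z => v126 x1 x2 * z) (s148 c)
  have a2 : v189 x1 x2 * v126 x1 x2 = v189 x1 x2 * (v112 x1 x2 + v25 x1 x2 * v131 x1 x2) := congrArg (fun z => v189 x1 x2 * z) (s126 c)
  have a3 : v50 x1 x2 * v32 x1 x2 = v50 x1 x2 * (v72 x1 x2 + v25 x1 x2 * v5 x1 x2) := congrArg (fun z => v50 x1 x2 * z) (s32 c)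
  have a4 : v72 x1 x2 * v50 x1 x2 = v72 x1 x2 * (v187 x1 x2 + v25 x1 x2 * v188 x1 x2) := congrArg (fun z => v72 x1 x2 * z) (s50 c)
  have b := bC32 c
  try simp only [v0, v1, v2, v3, v5, v12, v24, v25, v32, v50, v72, v118, v126, v131, v148, v187, v188, v189, v190, v191, v192, v193, v194] at a1
  try simp only [v0, v1, v2, v3, v5, v12, v24, v25, v32, v50, v72, v118, v126, v131, v148, v187, v188, v189, v190, v191, v192, v193, v194] at a2
  try simp only [v0, v1, v2, v3, v5, v12, v24, v25, v32, v50, v72, v118, v126, v131, v148, v187, v188, v189, v190, v191, v192, v193, v194] at a3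
  try simp only [v0, v1, v2, v3, v5, v12, v24, v25, v32, v50, v72, v118, v126, v131, v148, v187, v188, v189, v190, v191, v192, v193, v194] at a4
  try simp only [v0, v1, v2, v3, v5, v12, v24, v25, v32, v50, v72, v118, v126, v131, v148, v187, v188, v189, v190, v191, v192, v193, v194] at b
  simp only [v0, v1, v2, v3, v5, v12, v24, v25, v32, v50, v72, v118, v126, v131, v148, v187, v188, v189, v190, v191, v192, v193, v194]
  (try push_cast at a1 a2 a3 a4 b ⊢)
  first | linear_combination a1 + a2 - a3 - a4 + b | grind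

theorem bC13 (c : Cx x1 x2) : v0 x1 x2 * v187 x1 x2 - v189 x1 x2 * v39 x1 x2 = 0 := by
  have hc := c.hc
  have h3 := s3q x1 x2
  have g0 := (c.p37).ne'
  have g1 := (c.p176).ne'
  simp only [v0, v3, v5, v10, v12, v14, v16, v24, v29, v33, v34, v35, v36, v37, v38, v39, v162, v165, v166, v167, v169, v174, v175, v176, v178, v182, v187, v189] at hc g0 g1 ⊢
  push_cast at hc g0 g1 ⊢
  grind

theorem hC13 (c : Cx x1 x2) : v0 x1 x2 * v50 x1 x2 - v148 x1 x2 * v39 x1 x2 = v25 x1 x2 * v196 x1 x2 := by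
  have a2 : v0 x1 x2 * v50 x1 x2 = v0 x1 x2 * (v187 x1 x2 + v25 x1 x2 * v188 x1 x2) := congrArg (fun z => v0 x1 x2 * z) (s50 c)
  have a3 : v39 x1 x2 * v148 x1 x2 = v39 x1 x2 * (v189 x1 x2 + v25 x1 x2 * v5 x1 x2) := congrArg (fun z => v39 x1 x2 * z) (s148 c)
  have b := bC13 c
  try simp only [v0, v1, v2, v3, v5, v12, v24, v25, v50, v148, v187, v188, v189, v195, v196] at a2
  try simp only [v0, v1, v2, v3, v5, v12, v24, v25, v50, v148, v187, v188, v189, v195, v196] at a3
  try simp only [v0, v1, v2, v3, v5, v12, v24, v25, v50, v148, v187, v188, v189, v195, v196] at b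
  simp only [v0, v1, v2, v3, v5, v12, v24, v25, v50, v148, v187, v188, v189, v195, v196]
  (try push_cast at a2 a3 b ⊢)
  first | linear_combination a2 - a3 + b | grind

theorem core (c : Cx x1 x2) (hW : 0 ≤ v25 x1 x2) (hWQ : 0 ≤ v25 x1 x2 * v198 x1 x2) :
    0 ≤ starw_v (v138 x1 x2) (v0 x1 x2) (v32 x1 x2) ((-v148 x1 x2)) ((-v39 x1 x2)) ((-v126 x1 x2)) (v50 x1 x2) := by
  have e1 : v32 x1 x2 * (-v39 x1 x2) - v0 x1 x2 * (-v126 x1 x2) = v25 x1 x2 * v161 x1 x2 := by linear_combination hC12 c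
  have e2 : (-v148 x1 x2) * (-v126 x1 x2) - v32 x1 x2 * v50 x1 x2 = v25 x1 x2 * v194 x1 x2 := by linear_combination hC32 c
  have e3 : v0 x1 x2 * v50 x1 x2 - (-v148 x1 x2) * (-v39 x1 x2) = v25 x1 x2 * v196 x1 x2 := by linear_combination hC13 c
  have f2 : (-v148 x1 x2) = v197 x1 x2 := by
    simp only [v0, v1, v2, v3, v32, v148, v197]
    try (push_cast; ring)
  rw [starw_eq hW (hE c) e1 e2 e3]
  rw [f2]
  exact hWQ

end Pool.Agent.Strip051.LB.ChB00V2_pm_001
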